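import Mathlib

set_option autoImplicit false

/-!
# A matching between positions, and groups of sequences defined by it

`Y` is an additive commutative group and `v : ℕ → Y` a sequence (of digits).  For a block number `I`
the positions below `4 I` are divided into the positions `dl I j` (`j < ND I`) and the positions
`ep I j`, and `dl I j` is matched to `ep I j`.
-/

namespace Pool.Agent.Run7.h129.FF

/-- the first block with matched positions of the first kind -/
def i0 (I : ℕ) : ℕ := I / 3 + 1

/-- the number of positions of the first kind below `4 I` -/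
def ND (I : ℕ) : ℕ := 3 * (I - i0 I)

/-- the `j`-th position of the first kind -/
def dl (I j : ℕ) : ℕ := 4 * (i0 I + j / 3) + 1 + j % 3

/-- the `j`-th position of the second kind -/
def ep (I j : ℕ) : ℕ := if j < 4 * i0 I then j else 4 * (j - 3 * i0 I)

lemma cover (I y : ℕ) (hy : y < 4 * I) : (∃ j < ND I, dl I j = y) ∨ ∃ j, ep I j = y := by
  by_cases h : 4 * i0 I ≤ y ∧ y % 4 ≠ 0
  · left
    refine ⟨3 * (y / 4 - i0 I) + (y % 4 - 1), ?_, ?_⟩
    · unfold ND i0 at *
      omega
    · unfold dl i0 at *
      omega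
  · right
    by_cases h1 : y < 4 * i0 I
    · refine ⟨y, ?_⟩
      unfold ep
      rw [if_pos h1]
    · refine ⟨3 * i0 I + y / 4, ?_⟩
      unfold ep
      rw [if_neg (by unfold i0 at *; omega)]
      unfold i0 at *
      omega

lemma dl_lt {I j : ℕ} (hj : j < ND I) : dl I j < 4 * I := by
  unfold dl ND i0 at *
  omega

lemma ep_lt {I j : ℕ} (hj : j < ND I) : ep I j < dl I j := by
  unfold ep
  split_ifs with h <;> unfold dl ND i0 at * <;> omega

/-- the `ND I` last positions of the second kind are matched, the other ones are few -/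
lemma few {I j : ℕ} (hj : ep I j < 4 * I) : j < ND I + 6 := by
  unfold ep at hj
  split_ifs at hj with h <;> unfold ND i0 at * <;> omega

variable {Y : Type*} [AddCommGroup Y]

/-- the sequences supported below `4 I` whose digits at matched positions are related by `g`, and
whose other digits at positions of the second kind vanish -/
structure InW (I : ℕ) (g : Y →+ Y) (v : ℕ → Y) : Prop where
  supp : ∀ y, 4 * I ≤ y → v y = 0
  rel : ∀ j, j < ND I → v (ep I j) = g (v (dl I j))
  rest : ∀ j, ND I ≤ j → ep I j < 4 * I → v (ep I j) = 0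

lemma InW.neg {I : ℕ} {g : Y →+ Y} {v : ℕ → Y} (h : InW I g v) : InW I g (-v) := by
  refine ⟨fun y hy => ?_, fun j hj => ?_, fun j hj h1 => ?_⟩
  · simp [h.supp y hy]
  · simp [h.rel j hj]
  · simp [h.rest j hj h1]

/-- the highest block of an element has the first digit zero -/
lemma InW.first {I : ℕ} {g : Y →+ Y} {v : ℕ → Y} (h : InW I g v) {i : ℕ}
    (hi : ∀ y, 4 * (i + 1) ≤ y → v y = 0) : v (4 * i) = 0 := by
  by_cases h1 : 4 * I ≤ 4 * i
  · exact h.supp _ h1
  · by_cases h2 : i < i0 I
    · have e : ep I (4 * i) = 4 * i := by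
        unfold ep
        rw [if_pos (by omega)]
      by_cases h3 : 4 * i < ND I
      · have h4 := h.rel _ h3
        rw [e] at h4
        rw [h4, hi _ (by unfold dl i0 at *; omega), map_zero]
      · have h4 := h.rest _ (not_lt.1 h3) (by rw [e]; omega)
        rwa [e] at h4
    · have e : ep I (3 * i0 I + i) = 4 * i := by
        unfold ep
        rw [if_neg (by omega)]
        omega
      by_cases h3 : 3 * i0 I + i < ND I
      · have h4 := h.rel _ h3
        rw [e] at h4
        rw [h4, hi _ (by unfold dl ND i0 at *; omega), map_zero]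
      · have h4 := h.rest _ (not_lt.1 h3) (by rw [e]; omega)
        rwa [e] at h4

/-- the highest nonzero digit of an element is at a position of the first kind -/
lemma InW.top {I : ℕ} {g : Y →+ Y} {v : ℕ → Y} (h : InW I g v) {y : ℕ} (hy : v y ≠ 0)
    (h0 : ∀ y', y < y' → v y' = 0) : ∃ j < ND I, dl I j = y := by
  have h1 : y < 4 * I := by
    by_contra h1
    exact hy (h.supp _ (not_lt.1 h1))
  rcases cover I y h1 with h2 | ⟨j, hj⟩
  · exact h2
  · exfalso
    by_cases h3 : j < ND I
    · have h4 := h.rel _ h3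
      rw [hj] at h4
      rw [h4, h0 _ (by rw [← hj]; exact ep_lt h3), map_zero] at hy
      exact hy rfl
    · have h4 := h.rest _ (not_lt.1 h3) (by rw [hj]; exact h1)
      rw [hj] at h4
      exact hy h4

lemma exists_top {I : ℕ} {g : Y →+ Y} {v : ℕ → Y} (h : InW I g v) (h0 : v ≠ 0) :
    ∃ y, v y ≠ 0 ∧ ∀ y', y < y' → v y' = 0 := by
  classical
  obtain ⟨y0, hy0⟩ := Function.ne_iff.1 h0
  have hb : ∀ y, v y ≠ 0 → y ≤ 4 * I := fun y hy => by
    by_contra h1
    exact hy (h.supp _ (by omega))
  refine ⟨Nat.findGreatest (fun y => v y ≠ 0) (4 * I),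
    Nat.findGreatest_spec (P := fun y => v y ≠ 0) (hb _ hy0) hy0, fun y' hy' => ?_⟩
  by_contra h1
  exact absurd (Nat.le_findGreatest (P := fun y => v y ≠ 0) (hb _ h1) h1) (by omega)

lemma disj_aux {I J : ℕ} {g g' : Y →+ Y} {v : ℕ → Y} (h : InW I g v) (h' : InW J g' v)
    (hg' : Function.Injective g') (hIJ : J / 3 < I / 3) : v = 0 := by
  by_contra h0
  obtain ⟨y, hy, hy0⟩ := exists_top h h0
  obtain ⟨j, hj, hjy⟩ := h.top hy hy0
  obtain ⟨k, hk, hky⟩ := h'.top hy hy0
  have h1 : v (ep J k) ≠ 0 := by
    rw [h'.rel _ hk, hky]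
    intro h1
    exact hy (hg' (by rw [h1, map_zero]))
  have h2 : ep J k < y := by
    rw [← hky]
    exact ep_lt hk
  have hyI : y < 4 * I := by
    rw [← hjy]
    exact dl_lt hj
  obtain ⟨e, he, hje⟩ : ∃ e, ep I e = ep J k ∧ j < e := by
    by_cases h3 : ep J k < 4 * i0 I
    · refine ⟨ep J k, ?_, ?_⟩
      · unfold ep at *
        rw [if_pos h3]
      · unfold ep at *
        unfold dl i0 ND at *
        split_ifs at * <;> omega
    · refine ⟨3 * i0 I + ep J k / 4, ?_, ?_⟩
      · unfold ep at *
        unfold dl i0 ND at *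
        split_ifs at * <;> omega
      · unfold ep at *
        unfold dl i0 ND at *
        split_ifs at * <;> omega
  apply h1
  rw [← he]
  by_cases h3 : e < ND I
  · rw [h.rel _ h3, hy0 _ ?_, map_zero]
    rw [← hjy]
    unfold dl
    omega
  · exact h.rest _ (not_lt.1 h3) (by rw [he]; omega)

/-- different groups have trivial intersection -/
lemma disj {I J : ℕ} {g g' : Y →+ Y} {v : ℕ → Y} (h : InW I g v) (h' : InW J g' v)
    (hg : Function.Injective g) (hg' : Function.Injective g')
    (hd : I / 3 = J / 3 → ∀ y, g y = g' y → y = 0) : v = 0 := by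
  rcases lt_trichotomy (J / 3) (I / 3) with h1 | h1 | h1
  · exact disj_aux h h' hg' h1
  · by_contra h0
    obtain ⟨y, hy, hy0⟩ := exists_top h h0
    obtain ⟨j, hj, hjy⟩ := h.top hy hy0
    obtain ⟨k, hk, hky⟩ := h'.top hy hy0
    have hjk : j = k := by
      rw [← hjy] at hky
      unfold dl i0 at hky
      omega
    have e : ep I j = ep J k := by
      unfold ep i0
      rw [h1, hjk]
    have h2 := h.rel _ hj
    have h3 := h'.rel _ hk
    rw [e, h3, hky, hjy] at h2
    exact hy (hd h1.symm _ h2.symm)
  · exact disj_aux h' h hg h1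

/-- the solution of the system for two different `g`, `g'` -/
lemma solve (I : ℕ) (g g' : Y →+ Y) (hb : ∀ z, ∃ x, g x - g' x = z) (f : ℕ → Y) :
    ∃ v : ℕ → Y, (∀ j, j < ND I → v (ep I j) = g' (v (dl I j))) ∧
      (∀ j, j < ND I → f (ep I j) - v (ep I j) = g (f (dl I j) - v (dl I j))) := by
  choose x hx using fun j => hb (g (f (dl I j)) - f (ep I j))
  let v : ℕ → Y := fun y => if 4 * i0 I ≤ y ∧ y % 4 ≠ 0 then x (3 * (y / 4 - i0 I) + (y % 4 - 1))
    else if y < 4 * i0 I then g' (x y) else g' (x (3 * i0 I + y / 4))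
  have h1 : ∀ j, j < ND I → v (dl I j) = x j := by
    intro j hj
    have : 4 * i0 I ≤ dl I j ∧ dl I j % 4 ≠ 0 := by unfold dl; omega
    simp only [v]
    rw [if_pos this]
    congr 1
    unfold dl
    omega
  have h2 : ∀ j, j < ND I → v (ep I j) = g' (x j) := by
    intro j hj
    simp only [v]
    by_cases h : j < 4 * i0 I
    · have e : ep I j = j := by unfold ep; rw [if_pos h]
      rw [e, if_neg (by omega), if_pos h]
    · have e : ep I j = 4 * (j - 3 * i0 I) := by unfold ep; rw [if_neg h]
      rw [e, if_neg (by omega), if_neg (by omega)]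
      congr 2
      omega
  refine ⟨v, fun j hj => by rw [h1 j hj, h2 j hj], fun j hj => ?_⟩
  rw [h1 j hj, h2 j hj, map_sub]
  have := hx j
  have h3 : g (x j) = g (f (dl I j)) - f (ep I j) + g' (x j) := by rw [← this]; abel
  rw [h3]
  abel

end Pool.Agent.Run7.h129.FF
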