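import Mathlib

set_option autoImplicit false

/-!
# A family of additive automorphisms with invertible differences

For a finite field `K` of characteristic two the additive group of `Fin 8 → K` is that of a field
with `|K| ^ 8` elements; the multiplications by its nonzero elements have invertible differences.
-/

namespace Pool.Agent.Run7.h129.FF

/-- the index set of the family -/
abbrev Ix (K : Type*) [Field K] := Fin 3 × Fin 33 × Kˣ

lemma exists_family (K : Type*) [Field K] [Finite K] [CharP K 2] :
    ∃ G : Ix K → ((Fin 8 → K) →+ (Fin 8 → K)), (∀ i, Function.Injective (G i)) ∧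
      ∀ i j, i ≠ j → (∀ y, G i y = G j y → y = 0) ∧ ∀ z, ∃ x, G i x - G j x = z := by
  classical
  let _ : Fintype K := Fintype.ofFinite K
  let _ : Algebra (ZMod 2) K := ZMod.algebra K 2
  have : Fact (Nat.Prime 2) := ⟨Nat.prime_two⟩
  set e := Module.finrank (ZMod 2) K with he
  have hK : Fintype.card K = 2 ^ e := by
    have := Module.card_eq_pow_finrank (K := ZMod 2) (V := K)
    rw [this, ZMod.card]
  have he0 : e ≠ 0 := by
    intro h
    rw [h, pow_zero] at hK
    have := Fintype.one_lt_card (α := K)
    omega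
  let L := GaloisField 2 (8 * e)
  let _ : Fintype L := Fintype.ofFinite L
  have hL : Fintype.card L = (Fintype.card K) ^ 8 := by
    rw [← Nat.card_eq_fintype_card, GaloisField.card 2 (8 * e) (by omega), hK, ← pow_mul, mul_comm]
  have hfin : Module.finrank (ZMod 2) (Fin 8 → K) = Module.finrank (ZMod 2) L := by
    rw [GaloisField.finrank 2 (by omega : 8 * e ≠ 0)]
    rw [Module.finrank_pi_fintype]
    simp [← he]
  let θ : (Fin 8 → K) ≃ₗ[ZMod 2] L := LinearEquiv.ofFinrankEq _ _ hfin
  have hcard : Fintype.card (Ix K) ≤ Fintype.card Lˣ := by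
    rw [Fintype.card_units, hL]
    simp only [Ix, Fintype.card_prod, Fintype.card_fin, Fintype.card_units]
    have hq : 2 ≤ Fintype.card K := Fintype.one_lt_card
    generalize Fintype.card K = q at hq
    obtain ⟨m, rfl⟩ : ∃ m, q = m + 2 := ⟨q - 2, by omega⟩
    have h1 : m + 2 - 1 = m + 1 := by omega
    rw [h1]
    have h2 : (m + 2) ^ 8 = (m + 1) * ((m+2)^7 + (m+2)^6 + (m+2)^5 + (m+2)^4 + (m+2)^3 + (m+2)^2 +
      (m+2) + 1) + 1 := by ring
    rw [h2, Nat.add_sub_cancel]
    have h3 : 2 ^ 7 ≤ (m + 2) ^ 7 := Nat.pow_le_pow_left (by omega) 7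
    nlinarith [h3, Nat.zero_le m]
  obtain ⟨lam⟩ := Function.Embedding.nonempty_of_card_le hcard
  refine ⟨fun i => ((θ.symm.toAddEquiv : L ≃+ (Fin 8 → K)).toAddMonoidHom.comp
    (AddMonoidHom.mulLeft (lam i : L))).comp (θ.toAddEquiv : (Fin 8 → K) ≃+ L).toAddMonoidHom,
    fun i => ?_, fun i j hij => ?_⟩
  · intro a b hab
    have h1 : θ.symm ((lam i : L) * θ a) = θ.symm ((lam i : L) * θ b) := hab
    have h2 := θ.symm.injective h1
    have h3 := mul_left_cancel₀ (lam i).ne_zero h2
    exact θ.injective h3
  · have hne : (lam i : L) - (lam j : L) ≠ 0 := by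
      intro h
      exact hij (lam.injective (Units.ext (sub_eq_zero.1 h)))
    refine ⟨fun y hy => ?_, fun z => ?_⟩
    · have h1 : θ.symm ((lam i : L) * θ y) = θ.symm ((lam j : L) * θ y) := hy
      have h2 := θ.symm.injective h1
      have h3 : ((lam i : L) - (lam j : L)) * θ y = 0 := by rw [sub_mul, h2, sub_self]
      have h4 := (mul_eq_zero.1 h3).resolve_left hne
      exact θ.injective (by rw [h4, map_zero])
    · refine ⟨θ.symm (((lam i : L) - (lam j : L))⁻¹ * θ z), ?_⟩
      have : ∀ x : L, θ.symm ((lam i : L) * x) - θ.symm ((lam j : L) * x) =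
          θ.symm (((lam i : L) - (lam j : L)) * x) := by
        intro x
        rw [← map_sub, sub_mul]
      have h2 := this (((lam i : L) - (lam j : L))⁻¹ * θ z)
      rw [mul_inv_cancel_left₀ hne, LinearEquiv.symm_apply_apply] at h2
      refine Eq.trans ?_ h2
      simp [AddMonoidHom.comp_apply]

end Pool.Agent.Run7.h129.FF
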