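import Mathlib
import Pool.Agent.Run7.h129.FF
import Pool.Agent.Run7.h129.Fam

set_option autoImplicit false

/-!
# The basis of `K[X]` with bounded representation function, characteristic two
-/

namespace Pool.Agent.Run7.h129.FF

open Polynomial

variable {K : Type*} [Field K]

/-- the `y`-th digit of a polynomial in base `X ^ 8` -/
def dig (f : K[X]) (y : ℕ) : Fin 8 → K := fun r => f.coeff (8 * y + r)

lemma dig_sub (f g : K[X]) : dig (f - g) = dig f - dig g := by
  funext y r
  simp [dig]

lemma dig_add (f g : K[X]) : dig (f + g) = dig f + dig g := by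
  funext y r
  simp [dig]

lemma dig_neg (f : K[X]) : dig (-f) = -dig f := by
  funext y r
  simp [dig]

lemma coeff_eq_dig (f : K[X]) (m : ℕ) : f.coeff m = dig f (m / 8) ⟨m % 8, Nat.mod_lt _ (by norm_num)⟩ := by
  unfold dig
  congr 1
  simp only
  omega

lemma dig_inj {f g : K[X]} (h : dig f = dig g) : f = g := by
  ext m
  rw [coeff_eq_dig, coeff_eq_dig, h]

lemma dig_zero_of_lt {f : K[X]} {y : ℕ} (h : f.natDegree < 8 * y) : dig f y = 0 := by
  funext r
  exact coeff_eq_zero_of_natDegree_lt (by omega)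

/-- a polynomial with prescribed digits -/
noncomputable def ofDig (v : ℕ → Fin 8 → K) (N : ℕ) : K[X] :=
  ∑ m ∈ Finset.range (8 * N), C (v (m / 8) ⟨m % 8, Nat.mod_lt _ (by norm_num)⟩) * X ^ m

lemma coeff_ofDig (v : ℕ → Fin 8 → K) (N m : ℕ) : (ofDig v N).coeff m =
    if m < 8 * N then v (m / 8) ⟨m % 8, Nat.mod_lt _ (by norm_num)⟩ else 0 := by
  unfold ofDig
  rw [finsetSum_coeff]
  simp only [coeff_C_mul_X_pow]
  rw [Finset.sum_ite_eq]
  simp

lemma dig_ofDig (v : ℕ → Fin 8 → K) (N y : ℕ) (hy : y < N) : dig (ofDig v N) y = v y := by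
  funext r
  unfold dig
  have hr := r.2
  rw [coeff_ofDig, if_pos (by omega)]
  have h1 : (8 * y + (r : ℕ)) / 8 = y := by omega
  have h2 : (8 * y + (r : ℕ)) % 8 = r := by omega
  simp only [h1, h2]

variable (G : Ix K → ((Fin 8 → K) →+ (Fin 8 → K)))

/-- the elements of the basis of type `(I, n')`: the degree is `32 I + n'`, the digit number `4 I`
does not vanish, and the lower digits at matched positions are related by the automorphism
attached to `I mod 3`, `n'` and the leading coefficient -/
def T (I : ℕ) (n' : Fin 33) (a : K[X]) : Prop :=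
  a.natDegree = 32 * I + n' ∧ dig a (4 * I) ≠ 0 ∧ ∃ c : Kˣ, a.leadingCoeff = c ∧
    ∀ j, j < ND I → dig a (ep I j) = G (⟨I % 3, Nat.mod_lt _ (by norm_num)⟩, n', c) (dig a (dl I j))

/-- the basis -/
def A : Set K[X] := {a | a = 0 ∨ ∃ I n', T G I n' a}

/-- the upper digits -/
def top (I : ℕ) (a : K[X]) : Fin 5 → Fin 8 → K := fun i => dig a (4 * I + i)

/-- the unmatched digits -/
def zp (I : ℕ) (a : K[X]) : Fin 6 → Fin 8 → K := fun i => dig a (ep I (ND I + i))

variable {G}

lemma lead_eq_of_top {I : ℕ} {n' : Fin 33} {a b : K[X]} (ha : a.natDegree = 32 * I + n')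
    (hb : b.natDegree = 32 * I + n') (h : top I a = top I b) : a.leadingCoeff = b.leadingCoeff := by
  have hn := n'.2
  unfold leadingCoeff
  rw [ha, hb]
  have h1 := congrFun (congrFun h ⟨n' / 8, by omega⟩) ⟨n' % 8, Nat.mod_lt _ (by norm_num)⟩
  unfold top dig at h1
  simp only at h1
  have h2 : 8 * (4 * I + (n' : ℕ) / 8) + (n' : ℕ) % 8 = 32 * I + n' := by omega
  rwa [h2] at h1

/-- two elements of one type with equal upper and unmatched digits differ by an element of the group -/
lemma inW_sub {I : ℕ} {n' : Fin 33} {a b : K[X]} (ha : T G I n' a) (hb : T G I n' b)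
    (h : top I a = top I b) (hz : zp I a = zp I b) :
    ∃ c : Kˣ, a.leadingCoeff = c ∧
      InW I (G (⟨I % 3, Nat.mod_lt _ (by norm_num)⟩, n', c)) (dig (a - b)) := by
  obtain ⟨ha1, -, c, ha2, ha3⟩ := ha
  obtain ⟨hb1, -, c', hb2, hb3⟩ := hb
  have hc : c = c' := by
    apply Units.ext
    rw [← ha2, ← hb2]
    exact lead_eq_of_top ha1 hb1 h
  subst hc
  refine ⟨c, ha2, ⟨fun y hy => ?_, fun j hj => ?_, fun j hj hj2 => ?_⟩⟩
  · rw [dig_sub, Pi.sub_apply, sub_eq_zero]
    by_cases h1 : y < 4 * I + 5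
    · have h2 := congrFun h ⟨y - 4 * I, by omega⟩
      unfold top at h2
      simp only at h2
      rwa [Nat.add_sub_cancel' hy] at h2
    · have := n'.2
      rw [dig_zero_of_lt (by omega), dig_zero_of_lt (by omega)]
  · rw [dig_sub, Pi.sub_apply, Pi.sub_apply, ha3 j hj, hb3 j hj, map_sub]
  · rw [dig_sub, Pi.sub_apply, sub_eq_zero]
    have h1 := few hj2
    have h2 := congrFun hz ⟨j - ND I, by omega⟩
    unfold zp at h2
    simp only at h2
    rwa [Nat.add_sub_cancel' hj] at h2

/-- the block number of an element of the basis is the number of the highest block of the difference -/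
lemma block_eq {I J J' : ℕ} {n : Fin 33} {g : (Fin 8 → K) →+ (Fin 8 → K)} {a b : K[X]}
    (ha : T G J n a) (hb : T G J' n b) (hw : InW I g (dig (a - b))) : J ≤ J' := by
  by_contra hJ
  have hn := n.2
  by_cases h : (n : ℕ) < 32
  · have h1 : dig (a - b) (4 * J) = 0 := by
      refine hw.first fun y hy => ?_
      rw [dig_sub, Pi.sub_apply, dig_zero_of_lt (by rw [ha.1]; omega),
        dig_zero_of_lt (by rw [hb.1]; omega), sub_zero]
    rw [dig_sub, Pi.sub_apply, dig_zero_of_lt (f := b) (by rw [hb.1]; omega), sub_zero] at h1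
    exact ha.2.1 h1
  · have hn' : (n : ℕ) = 32 := by omega
    have h1 : dig (a - b) (4 * (J + 1)) = 0 := by
      refine hw.first fun y hy => ?_
      rw [dig_sub, Pi.sub_apply, dig_zero_of_lt (by rw [ha.1]; omega),
        dig_zero_of_lt (by rw [hb.1]; omega), sub_zero]
    rw [dig_sub, Pi.sub_apply, dig_zero_of_lt (f := b) (by rw [hb.1]; omega), sub_zero] at h1
    obtain ⟨hdeg, -, c, hc, -⟩ := ha
    have h2 := congrFun h1 0
    have h3 : a.natDegree = 32 * J + 32 := by rw [hdeg, hn']
    unfold dig at h2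
    simp only [Fin.val_zero, add_zero, Pi.zero_apply] at h2
    have h4 : 8 * (4 * (J + 1)) = a.natDegree := by rw [h3]; ring
    rw [h4] at h2
    exact c.ne_zero (by rw [← hc]; exact h2)


/-- The ordered pairs `(a, b)` of elements of `A` with `a + b = f` whose degrees are at most that
of `f`. -/
def reps (A : Set K[X]) (f : K[X]) : Set (K[X] × K[X]) :=
  {z | z.1 ∈ A ∧ z.2 ∈ A ∧ z.1 + z.2 = f ∧ z.1.degree ≤ f.degree ∧ z.2.degree ≤ f.degree}

/-- the data attached to a pair -/
abbrev Dat (K : Type*) := ((Fin 5 → Fin 8 → K) × (Fin 6 → Fin 8 → K)) ×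
  ((Fin 5 → Fin 8 → K) × (Fin 6 → Fin 8 → K))

variable (G) in
/-- the pairs of given relative degrees, the first element having the degree of `f` -/
def R1 (f : K[X]) (n m : Fin 33) : Set (K[X] × K[X]) :=
  {z | (∃ I, T G I n z.1) ∧ (∃ J, T G J m z.2) ∧ z.1 + z.2 = f ∧ z.1.natDegree = f.natDegree}

lemma R1_bound [Finite K] [CharP K 2] (hG : ∀ i, Function.Injective (G i))
    (hG2 : ∀ i j, i ≠ j → ∀ y, G i y = G j y → y = 0) (f : K[X]) (hf : f ≠ 0) (n m : Fin 33) :
    (R1 G f n m).encard ≤ Nat.card (Dat K) := by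
  classical
  have hfin : Finite (Dat K) := inferInstance
  let F : K[X] × K[X] → Dat K := fun z =>
    ((top ((z.1.natDegree - n) / 32) z.1, zp ((z.1.natDegree - n) / 32) z.1),
     (top ((z.2.natDegree - m) / 32) z.2, zp ((z.2.natDegree - m) / 32) z.2))
  have hinj : Set.InjOn F (R1 G f n m) := by
    rintro ⟨a, b⟩ ⟨⟨I, haI⟩, ⟨J, hbJ⟩, hab, had⟩ ⟨a', b'⟩ ⟨⟨I', haI'⟩, ⟨J', hbJ'⟩, hab', had'⟩ hF
    simp only at *
    have e1 : (a.natDegree - n) / 32 = I := by rw [haI.1]; omega
    have e2 : (b.natDegree - m) / 32 = J := by rw [hbJ.1]; omega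
    have e3 : (a'.natDegree - n) / 32 = I' := by rw [haI'.1]; omega
    have e4 : (b'.natDegree - m) / 32 = J' := by rw [hbJ'.1]; omega
    have hII : I = I' := by
      have := haI.1
      have := haI'.1
      omega
    subst hII
    simp only [F, e1, e2, e3, e4, Prod.mk.injEq] at hF
    obtain ⟨⟨h1, h2⟩, ⟨h3, h4⟩⟩ := hF
    obtain ⟨c, hc, hw⟩ := inW_sub haI haI' h1 h2
    have hdiff : a - a' = -(b - b') := by
      have : a + b = a' + b' := by rw [hab, hab']
      linear_combination this
    have hJJ : J = J' := by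
      apply le_antisymm
      · have : InW I (G (⟨I % 3, Nat.mod_lt _ (by norm_num)⟩, n, c)) (dig (b - b')) := by
          have h5 := hw.neg
          rw [hdiff, dig_neg, neg_neg] at h5
          exact h5
        exact block_eq hbJ hbJ' this
      · have : InW I (G (⟨I % 3, Nat.mod_lt _ (by norm_num)⟩, n, c)) (dig (b' - b)) := by
          have h5 := hw
          rw [hdiff, neg_sub] at h5
          exact h5
        exact block_eq hbJ' hbJ this
    subst hJJ
    obtain ⟨c', hc', hw'⟩ := inW_sub hbJ hbJ' h3 h4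
    have hw'' := hw'.neg
    rw [← dig_neg, ← hdiff] at hw''
    have h0 : dig (a - a') = 0 := by
      refine disj hw hw'' (hG _) (hG _) fun hIJ => hG2 _ _ ?_
      intro h5
      simp only [Prod.mk.injEq, Fin.mk.injEq] at h5
      obtain ⟨h5, h6, h7⟩ := h5
      have hI : I = J := by omega
      subst hI h6 h7
      have h8 : f.coeff f.natDegree = 0 := by
        rw [← hab, coeff_add]
        have h9 : a.coeff (a + b).natDegree = c := by
          rw [hab, ← had, ← hc]
          rfl
        have h10 : b.coeff (a + b).natDegree = c := by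
          rw [hab, ← had, haI.1, ← hbJ.1, ← hc']
          rfl
        rw [h9, h10]
        exact CharTwo.add_self_eq_zero _
      exact hf (leadingCoeff_eq_zero.1 h8)
    have h6 : a = a' := by
      have := dig_inj (f := a - a') (g := 0) (by rw [h0]; funext y r; simp [dig])
      exact sub_eq_zero.1 this
    subst h6
    have h7 : b = b' := by
      have : a + b = a + b' := by rw [hab, hab']
      exact add_left_cancel this
    rw [h7]
  calc (R1 G f n m).encard = (F '' (R1 G f n m)).encard := (hinj.encard_image).symm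
    _ ≤ (Set.univ : Set (Dat K)).encard := Set.encard_le_encard (Set.subset_univ _)
    _ = Nat.card (Dat K) := by
      rw [Set.encard_univ, ENat.card_eq_coe_natCard]

lemma bound [Finite K] [CharP K 2] (hG : ∀ i, Function.Injective (G i))
    (hG2 : ∀ i j, i ≠ j → ∀ y, G i y = G j y → y = 0) (f : K[X]) (hf : f ≠ 0) :
    (reps (A G) f).encard ≤ (2 + 2 * (33 * 33 * Nat.card (Dat K)) : ℕ) := by
  classical
  have hsub : reps (A G) f ⊆ {(0, f)} ∪ ({(f, 0)} ∪
      ((⋃ n : Fin 33, ⋃ m : Fin 33, R1 G f n m) ∪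
      (Prod.swap '' (⋃ n : Fin 33, ⋃ m : Fin 33, R1 G f n m)))) := by
    rintro ⟨a, b⟩ ⟨ha, hb, hab, had, hbd⟩
    simp only at *
    rcases ha with rfl | ⟨I, n, ha⟩
    · left
      rw [zero_add] at hab
      simp [hab]
    · right
      rcases hb with rfl | ⟨J, m, hb⟩
      · left
        rw [add_zero] at hab
        simp [hab]
      · right
        have h1 := natDegree_le_natDegree had
        have h2 := natDegree_le_natDegree hbd
        by_cases h : a.natDegree = f.natDegree
        · left
          simp only [Set.mem_iUnion]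
          exact ⟨n, m, ⟨I, ha⟩, ⟨J, hb⟩, hab, h⟩
        · right
          have h3 : b.natDegree = f.natDegree := by
            by_contra h4
            have h5 : f.coeff f.natDegree = 0 := by
              rw [← hab, coeff_add, coeff_eq_zero_of_natDegree_lt, coeff_eq_zero_of_natDegree_lt,
                add_zero]
              · rw [hab]; omega
              · rw [hab]; omega
            exact hf (leadingCoeff_eq_zero.1 h5)
          refine ⟨(b, a), ?_, rfl⟩
          simp only [Set.mem_iUnion]
          exact ⟨m, n, ⟨J, hb⟩, ⟨I, ha⟩, by rw [add_comm]; exact hab, h3⟩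
  have hU : (⋃ n : Fin 33, ⋃ m : Fin 33, R1 G f n m).encard ≤ (33 * 33 * Nat.card (Dat K) : ℕ) := by
    have hm : ∀ n : Fin 33, (⋃ m : Fin 33, R1 G f n m).encard ≤ (33 * Nat.card (Dat K) : ℕ) := by
      intro n
      refine (Set.encard_iUnion_le_of_fintype _).trans ?_
      refine (Finset.sum_le_sum fun m _ => R1_bound hG hG2 f hf n m).trans ?_
      rw [Finset.sum_const, Finset.card_univ, Fintype.card_fin, nsmul_eq_mul]
      push_cast
      exact le_rfl
    refine (Set.encard_iUnion_le_of_fintype _).trans ?_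
    refine (Finset.sum_le_sum fun n _ => hm n).trans ?_
    rw [Finset.sum_const, Finset.card_univ, Fintype.card_fin, nsmul_eq_mul, mul_assoc]
    push_cast
    exact le_rfl
  refine (Set.encard_le_encard hsub).trans ?_
  refine (Set.encard_union_le _ _).trans ?_
  rw [Set.encard_singleton]
  refine (add_le_add_right (Set.encard_union_le _ _) 1).trans ?_
  rw [Set.encard_singleton]
  refine (add_le_add_right (add_le_add_right (Set.encard_union_le _ _) 1) 1).trans ?_
  rw [(Prod.swap_injective.injOn).encard_image]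
  refine (add_le_add_right (add_le_add_right (add_le_add hU hU) 1) 1).trans ?_
  generalize 33 * 33 * Nat.card (Dat K) = D
  push_cast
  rw [← add_assoc, two_mul, ← one_add_one_eq_two]

/-- every nonzero polynomial of positive degree is a sum of two elements -/
lemma cov_pos (hG3 : ∀ i j, i ≠ j → ∀ z, ∃ x, G i x - G j x = z) (f : K[X])
    (hf : f.natDegree ≠ 0) : (reps (A G) f).Nonempty := by
  classical
  have hf0 : f ≠ 0 := by
    rintro rfl
    exact hf natDegree_zero
  set n := f.natDegree with hn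
  set I := (n - 1) / 32 with hI
  have hnI : n = 32 * I + (n - 32 * I) := by omega
  set n' := n - 32 * I with hn'
  have hn1 : 1 ≤ n' := by omega
  have hn2 : n' < 33 := by omega
  obtain ⟨l, hl1, hl2, hl3⟩ : ∃ l : ℕ, l < 2 ∧ l < n' ∧
      dig f (4 * I) ≠ Pi.single (⟨l % 8, Nat.mod_lt _ (by norm_num)⟩ : Fin 8) (1 : K) := by
    by_cases h1 : n' = 1
    · refine ⟨0, by norm_num, by omega, fun h => ?_⟩
      have h2 := congrFun h 1
      have h3 : dig f (4 * I) 1 = f.coeff n := by
        unfold dig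
        congr 1
        simp only [Fin.val_one]
        omega
      rw [h3] at h2
      have h4 : f.coeff n ≠ 0 := by
        rw [hn]
        exact fun h => hf0 (leadingCoeff_eq_zero.1 h)
      apply h4
      rw [h2]
      rfl
    · by_cases h2 : dig f (4 * I) = Pi.single (⟨0 % 8, Nat.mod_lt _ (by norm_num)⟩ : Fin 8) (1 : K)
      · refine ⟨1, by norm_num, by omega, fun h => ?_⟩
        rw [h2] at h
        have h3 := congrFun h 0
        simp at h3
      · exact ⟨0, by norm_num, by omega, h2⟩
  obtain ⟨c, hc⟩ : ∃ c : Kˣ, f.leadingCoeff = c :=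
    ⟨Units.mk0 _ (leadingCoeff_ne_zero.2 hf0), rfl⟩
  set i : Ix K := (⟨I % 3, Nat.mod_lt _ (by norm_num)⟩, ⟨n', hn2⟩, c) with hi
  set j : Ix K := (⟨I % 3, Nat.mod_lt _ (by norm_num)⟩, ⟨l, by omega⟩, 1) with hj
  have hij : i ≠ j := by
    intro h
    simp only [hi, hj, Prod.mk.injEq, Fin.mk.injEq] at h
    omega
  obtain ⟨v, hv1, hv2⟩ := solve I (G i) (G j) (hG3 i j hij) (dig f)
  let v' : ℕ → Fin 8 → K := fun y => if y < 4 * I then v y else
    Pi.single (⟨l % 8, Nat.mod_lt _ (by norm_num)⟩ : Fin 8) (1 : K)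
  set b : K[X] := ofDig v' (4 * I + 1) with hb
  have hbl : ∀ y, y < 4 * I → dig b y = v y := by
    intro y hy
    rw [hb, dig_ofDig _ _ _ (by omega)]
    simp only [v']
    rw [if_pos hy]
  have hbt : dig b (4 * I) = Pi.single (⟨l % 8, Nat.mod_lt _ (by norm_num)⟩ : Fin 8) (1 : K) := by
    rw [hb, dig_ofDig _ _ _ (by omega)]
    simp only [v']
    rw [if_neg (by omega)]
  have hbc : ∀ m, 32 * I + l < m → b.coeff m = 0 := by
    intro m hm
    rw [hb, coeff_ofDig]
    split_ifs with h
    · simp only [v']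
      rw [if_neg (by omega), Pi.single_apply, if_neg]
      intro h2
      rw [Fin.mk.injEq] at h2
      omega
    · rfl
  have hbl1 : b.coeff (32 * I + l) = 1 := by
    have := congrFun hbt ⟨l % 8, Nat.mod_lt _ (by norm_num)⟩
    rw [Pi.single_eq_same] at this
    rw [← this]
    unfold dig
    congr 1
    simp only
    omega
  have hbd : b.natDegree = 32 * I + l := by
    apply natDegree_eq_of_le_of_coeff_ne_zero
    · rw [natDegree_le_iff_coeff_eq_zero]
      exact hbc
    · rw [hbl1]
      exact one_ne_zero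
  have hbT : T G I ⟨l, by omega⟩ b := by
    refine ⟨hbd, ?_, 1, ?_, fun k hk => ?_⟩
    · rw [hbt]
      intro h
      have := congrFun h ⟨l % 8, Nat.mod_lt _ (by norm_num)⟩
      rw [Pi.single_eq_same] at this
      exact one_ne_zero this
    · unfold leadingCoeff
      rw [hbd, hbl1]
      rfl
    · have h1 := dl_lt hk
      have h2 := ep_lt hk
      rw [hbl _ (by omega), hbl _ h1]
      exact hv1 k hk
  have hbn : b.natDegree < f.natDegree := by
    rw [hbd, ← hn]
    omega
  have haT : T G I ⟨n', hn2⟩ (f - b) := by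
    have hd : (f - b).natDegree = f.natDegree := natDegree_sub_eq_left_of_natDegree_lt hbn
    refine ⟨by rw [hd, ← hn]; exact hnI, ?_, c, ?_, fun k hk => ?_⟩
    · rw [dig_sub, Pi.sub_apply, hbt]
      exact sub_ne_zero.2 hl3
    · unfold leadingCoeff
      rw [hd, coeff_sub, coeff_eq_zero_of_natDegree_lt hbn, sub_zero]
      exact hc
    · have h1 := dl_lt hk
      have h2 := ep_lt hk
      rw [dig_sub, Pi.sub_apply, Pi.sub_apply, hbl _ (by omega), hbl _ h1]
      exact hv2 k hk
  refine ⟨(f - b, b), Or.inr ⟨_, _, haT⟩, Or.inr ⟨_, _, hbT⟩, sub_add_cancel _ _, ?_, ?_⟩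
  · refine (degree_sub_le _ _).trans (max_le le_rfl ?_)
    exact (degree_lt_degree hbn).le
  · exact (degree_lt_degree hbn).le

lemma cov (hG3 : ∀ i j, i ≠ j → ∀ z, ∃ x, G i x - G j x = z) (f : K[X]) :
    (reps (A G) f).Nonempty := by
  by_cases hf : f.natDegree = 0
  · by_cases hf0 : f = 0
    · subst hf0
      exact ⟨(0, 0), Or.inl rfl, Or.inl rfl, add_zero _, le_rfl, le_rfl⟩
    · refine ⟨(f, 0), Or.inr ⟨0, 0, ?_⟩, Or.inl rfl, add_zero _, le_rfl, by simp⟩
      refine ⟨by rw [hf]; rfl, ?_, Units.mk0 _ (leadingCoeff_ne_zero.2 hf0), rfl, fun j hj => ?_⟩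
      · intro h
        have h1 := congrFun h 0
        have h2 : f.coeff 0 = 0 := h1
        rw [← hf] at h2
        exact hf0 (leadingCoeff_eq_zero.1 h2)
      · exfalso
        unfold ND i0 at hj
        omega
  · exact cov_pos hG3 f hf

theorem main (K : Type*) [Field K] [Finite K] [CharP K 2] :
    ∃ (A : Set K[X]) (C : ℕ), ∀ f : K[X], 1 ≤ (reps A f).encard ∧ (reps A f).encard ≤ C := by
  obtain ⟨G, hG, hG2⟩ := exists_family K
  refine ⟨A G, 2 + 2 * (33 * 33 * Nat.card (Dat K)), fun f => ⟨?_, ?_⟩⟩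
  · exact Set.one_le_encard_iff_nonempty.2 (cov (fun i j h => (hG2 i j h).2) f)
  · by_cases hf : f = 0
    · subst hf
      have h1 : reps (A G) 0 ⊆ {(0, 0)} := by
        rintro ⟨a, b⟩ ⟨-, -, -, h3, h4⟩
        simp only [degree_zero, le_bot_iff, degree_eq_bot] at h3 h4
        simp [h3, h4]
      refine (Set.encard_le_encard h1).trans ?_
      rw [Set.encard_singleton]
      push_cast
      exact le_trans (by norm_num) (le_add_right (le_refl (2 : ℕ∞)))
    · exact bound hG (fun i j h => (hG2 i j h).1) f hf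

end Pool.Agent.Run7.h129.FF
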