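import Mathlib

/-!
# Many lattice points on short arcs of circles near the real axis

`S a k t` is a set of `2 ^ k` Gaussian integers `p + q i` of equal norm `Nm a k t`, all congruent to
`1` modulo `2 a`, with argument at most about `4 / (3 t)` in absolute value.
-/

open Finset

namespace Pool.Agent.Run7.h129.Arc

/-- Multiplication by `u + v i`. -/
def mulp (u v : ℤ) (z : ℤ × ℤ) : ℤ × ℤ := (u * z.1 - v * z.2, u * z.2 + v * z.1)

/-- The set of lattice points. -/
def S (a : ℤ) : ℕ → ℤ → Finset (ℤ × ℤ)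
  | 0, _ => {(1, 0)}
  | k + 1, t => (S a k (4 * t)).image (mulp (1 + 2 * a * t) (2 * a)) ∪
      (S a k (4 * t)).image (mulp (1 + 2 * a * t) (-(2 * a)))

/-- The common norm of the elements of `S a k t`. -/
def Nm (a : ℤ) : ℕ → ℤ → ℤ
  | 0, _ => 1
  | k + 1, t => ((1 + 2 * a * t) ^ 2 + (2 * a) ^ 2) * Nm a k (4 * t)

lemma mem_S_succ {a : ℤ} {k : ℕ} {t : ℤ} {z : ℤ × ℤ} (h : z ∈ S a (k + 1) t) :
    ∃ y ∈ S a k (4 * t), ∃ v : ℤ, (v = 2 * a ∨ v = -(2 * a)) ∧ z = mulp (1 + 2 * a * t) v y := by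
  rw [S, Finset.mem_union, Finset.mem_image, Finset.mem_image] at h
  rcases h with ⟨y, hy, rfl⟩ | ⟨y, hy, rfl⟩
  · exact ⟨y, hy, _, Or.inl rfl, rfl⟩
  · exact ⟨y, hy, _, Or.inr rfl, rfl⟩

lemma norm_S (a : ℤ) (k : ℕ) : ∀ (t : ℤ) (z : ℤ × ℤ), z ∈ S a k t → z.1 ^ 2 + z.2 ^ 2 = Nm a k t := by
  induction k with
  | zero =>
    intro t z hz
    rw [S, Finset.mem_singleton] at hz
    rw [hz, Nm]
    norm_num
  | succ k ih =>
    intro t z hz
    obtain ⟨y, hy, v, hv, rfl⟩ := mem_S_succ hz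
    have h := ih _ _ hy
    rw [Nm, ← h]
    have hv2 : v ^ 2 = (2 * a) ^ 2 := by
      rcases hv with rfl | rfl <;> ring
    simp only [mulp]
    rw [← hv2]
    ring

lemma cong_S (a : ℤ) (k : ℕ) : ∀ (t : ℤ) (z : ℤ × ℤ), z ∈ S a k t →
    ∃ e f : ℤ, z.1 = 1 + 2 * a * e ∧ z.2 = 2 * a * f := by
  induction k with
  | zero =>
    intro t z hz
    rw [S, Finset.mem_singleton] at hz
    exact ⟨0, 0, by rw [hz]; ring, by rw [hz]; ring⟩
  | succ k ih =>
    intro t z hz
    obtain ⟨y, hy, v, hv, rfl⟩ := mem_S_succ hz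
    obtain ⟨e, f, he, hf⟩ := ih _ _ hy
    simp only [mulp]
    rw [he, hf]
    rcases hv with rfl | rfl
    · exact ⟨t + e + 2 * a * t * e - 2 * a * f, f + 2 * a * t * f + 1 + 2 * a * e, by ring, by ring⟩
    · exact ⟨t + e + 2 * a * t * e + 2 * a * f, f + 2 * a * t * f - 1 - 2 * a * e, by ring, by ring⟩

lemma Nm_pos {a : ℤ} (ha : 1 ≤ a) (k : ℕ) : ∀ t : ℤ, 0 < Nm a k t := by
  induction k with
  | zero => intro t; rw [Nm]; norm_num
  | succ k ih =>
    intro t
    rw [Nm]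
    have := ih (4 * t)
    positivity

/-- The common absolute value. -/
noncomputable def rad (a : ℤ) (k : ℕ) (t : ℤ) : ℝ := √((Nm a k t : ℤ) : ℝ)

lemma rad_sq {a : ℤ} (ha : 1 ≤ a) (k : ℕ) (t : ℤ) : rad a k t ^ 2 = Nm a k t := by
  rw [rad, Real.sq_sqrt]
  exact_mod_cast (Nm_pos ha k t).le

lemma rad_pos {a : ℤ} (ha : 1 ≤ a) (k : ℕ) (t : ℤ) : 0 < rad a k t :=
  Real.sqrt_pos.mpr (by exact_mod_cast Nm_pos ha k t)

lemma norm_rad {a : ℤ} (ha : 1 ≤ a) {k : ℕ} {t : ℤ} {z : ℤ × ℤ} (hz : z ∈ S a k t) :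
    (z.1 : ℝ) ^ 2 + (z.2 : ℝ) ^ 2 = rad a k t ^ 2 := by
  rw [rad_sq ha, ← norm_S a k t z hz]
  push_cast
  ring

/-- The absolute value of the multiplier. -/
noncomputable def wr (a t : ℤ) : ℝ := √((1 + 2 * a * t : ℝ) ^ 2 + (2 * a) ^ 2)

lemma rad_succ (a : ℤ) (k : ℕ) (t : ℤ) : rad a (k + 1) t = wr a t * rad a k (4 * t) := by
  rw [rad, rad, wr, Nm, ← Real.sqrt_mul (by positivity)]
  congr 1
  push_cast
  ring

lemma wr_ge (a t : ℤ) : (1 + 2 * a * t : ℝ) ≤ wr a t := by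
  rw [wr]
  refine Real.le_sqrt_of_sq_le ?_
  have : (0 : ℝ) ≤ (2 * a : ℝ) ^ 2 := by positivity
  linarith

lemma wr_le {a t : ℤ} (ha : 1 ≤ a) (ht : 1 ≤ t) : wr a t ≤ 5 * a * t := by
  have ha' : (1 : ℝ) ≤ a := by exact_mod_cast ha
  have ht' : (1 : ℝ) ≤ t := by exact_mod_cast ht
  have hat : (1 : ℝ) ≤ a * t := by nlinarith
  have hat2 : (a : ℝ) ≤ a * t := by nlinarith
  rw [wr]
  refine Real.sqrt_le_iff.mpr ⟨by positivity, ?_⟩
  have h1 : (1 + 2 * a * t : ℝ) ≤ 3 * (a * t) := by linarith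
  have h2 : (1 + 2 * a * t : ℝ) ^ 2 ≤ (3 * (a * t)) ^ 2 :=
    pow_le_pow_left₀ (by positivity) h1 2
  have h3 : (2 * a : ℝ) ^ 2 ≤ (2 * (a * t)) ^ 2 := pow_le_pow_left₀ (by positivity) (by linarith) 2
  have h4 : (0 : ℝ) ≤ (a * t) ^ 2 := by positivity
  nlinarith

lemma rad_le {a : ℤ} (ha : 1 ≤ a) (k : ℕ) : ∀ t : ℤ, 1 ≤ t →
    rad a k t ≤ (5 * 2 ^ k * (a * t : ℝ)) ^ k := by
  have ha' : (1 : ℝ) ≤ a := by exact_mod_cast ha
  induction k with
  | zero =>
    intro t ht
    rw [rad, Nm]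
    simp
  | succ k ih =>
    intro t ht
    have ht' : (1 : ℝ) ≤ t := by exact_mod_cast ht
    have hat : (0 : ℝ) < a * t := by positivity
    have h1 := ih (4 * t) (by linarith)
    rw [rad_succ]
    have h2 := wr_le ha ht
    have h3 := (rad_pos ha k (4 * t)).le
    have h4 : (0 : ℝ) ≤ 5 * a * t := by positivity
    calc wr a t * rad a k (4 * t) ≤ (5 * a * t) * (5 * 2 ^ k * (a * (4 * t : ℤ) : ℝ)) ^ k := by
          exact mul_le_mul h2 h1 h3 h4
      _ = 2 ^ (k * k + 2 * k) * (5 * (a * t : ℝ)) ^ (k + 1) := by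
          push_cast
          rw [show (5 * 2 ^ k * (a * (4 * t)) : ℝ) = 2 ^ (k + 2) * (5 * (a * t)) by ring, mul_pow,
            ← pow_mul, pow_succ]
          ring
      _ ≤ 2 ^ ((k + 1) * (k + 1)) * (5 * (a * t : ℝ)) ^ (k + 1) := by
          refine mul_le_mul_of_nonneg_right ?_ (by positivity)
          exact pow_le_pow_right₀ (by norm_num) (by nlinarith)
      _ = (5 * 2 ^ (k + 1) * (a * t : ℝ)) ^ (k + 1) := by
          rw [show (5 * 2 ^ (k + 1) * (a * t) : ℝ) = 2 ^ (k + 1) * (5 * (a * t)) by ring,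
            mul_pow (2 ^ (k + 1) : ℝ), ← pow_mul]

/-- The elements of `S a k t` are close to the positive real axis. -/
lemma angle_S {a : ℤ} (ha : 1 ≤ a) (k : ℕ) : ∀ (t : ℤ), 1 ≤ t → ∀ z ∈ S a k t,
    0 < (z.1 : ℝ) ∧ 3 * t * |(z.2 : ℝ)| ≤ 4 * rad a k t := by
  have ha' : (1 : ℝ) ≤ a := by exact_mod_cast ha
  induction k with
  | zero =>
    intro t ht z hz
    rw [S, Finset.mem_singleton] at hz
    rw [hz]
    have := rad_pos ha 0 t
    constructor
    · norm_num
    · simp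
      exact this.le
  | succ k ih =>
    intro t ht z hz
    have ht' : (1 : ℝ) ≤ t := by exact_mod_cast ht
    obtain ⟨y, hy, v, hv, rfl⟩ := mem_S_succ hz
    obtain ⟨h1, h2⟩ := ih (4 * t) (by linarith) y hy
    push_cast at h2
    have hn := norm_rad ha hy
    set r := rad a k (4 * t) with hr
    have hr0 : 0 < r := rad_pos ha k _
    rw [rad_succ, ← hr]
    set p : ℝ := (y.1 : ℝ) with hp
    set q : ℝ := (y.2 : ℝ) with hq
    have hq0 : 0 ≤ |q| := abs_nonneg q
    have hqr : 3 * t * |q| ≤ r := by linarith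
    have hqr3 : 3 * |q| ≤ r := by nlinarith
    have hp1 : r - |q| ≤ p := by
      have h5 : (r - |q|) ^ 2 ≤ p ^ 2 := by
        have h6 : |q| ^ 2 = q ^ 2 := sq_abs q
        nlinarith
      exact (le_abs_self _).trans (abs_le_of_sq_le_sq h5 h1.le)
    have hpr : p ≤ r := by nlinarith
    have hat : (1 : ℝ) ≤ a * t := by nlinarith
    have hw1 := wr_ge a t
    set w := wr a t with hw
    have hvabs : |(v : ℝ)| = 2 * a := by
      rcases hv with rfl | rfl
      · push_cast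
        rw [abs_of_nonneg (by positivity)]
      · push_cast
        rw [abs_neg, abs_of_nonneg (by positivity)]
    have hwv : t * |(v : ℝ)| ≤ w := by
      rw [hvabs]
      linarith
    constructor
    · simp only [mulp]
      push_cast
      rw [← hp, ← hq]
      have h7 : (v : ℝ) * q ≤ 2 * a * |q| := by
        rw [← hvabs, ← abs_mul]
        exact le_abs_self _
      have h8 : 2 * a * |q| ≤ a * r := by nlinarith
      have h9 : (2 / 3) * r ≤ p := by linarith
      have h10 : 2 * (a * t) * p ≥ 2 * a * ((2 / 3) * r) := by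
        have : (a : ℝ) ≤ a * t := by nlinarith
        nlinarith [mul_pos (by linarith : (0 : ℝ) < a) hr0]
      have h11 : 0 < a * r := mul_pos (by linarith) hr0
      nlinarith
    · simp only [mulp]
      push_cast
      rw [← hp, ← hq]
      have h12 : |(1 + 2 * a * t) * q + v * p| ≤ (1 + 2 * a * t) * |q| + |(v : ℝ)| * p := by
        refine (abs_add_le _ _).trans ?_
        rw [abs_mul, abs_mul, abs_of_pos h1, abs_of_nonneg (by nlinarith : (0 : ℝ) ≤ 1 + 2 * a * t)]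
      have h13 : 3 * t * ((1 + 2 * a * t) * |q|) ≤ w * r := by
        calc 3 * t * ((1 + 2 * a * t) * |q|) = (1 + 2 * a * t) * (3 * t * |q|) := by ring
          _ ≤ (1 + 2 * a * t) * r := mul_le_mul_of_nonneg_left hqr (by nlinarith)
          _ ≤ w * r := mul_le_mul_of_nonneg_right hw1 hr0.le
      have h14 : 3 * t * (|(v : ℝ)| * p) ≤ 3 * (w * r) := by
        calc 3 * t * (|(v : ℝ)| * p) = 3 * ((t * |(v : ℝ)|) * p) := by ring
          _ ≤ 3 * (w * p) := by
              refine mul_le_mul_of_nonneg_left ?_ (by norm_num)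
              exact mul_le_mul_of_nonneg_right hwv h1.le
          _ ≤ 3 * (w * r) := by
              refine mul_le_mul_of_nonneg_left ?_ (by norm_num)
              exact mul_le_mul_of_nonneg_left hpr (by nlinarith)
      calc 3 * t * |(1 + 2 * a * t) * q + v * p|
          ≤ 3 * t * ((1 + 2 * a * t) * |q| + |(v : ℝ)| * p) :=
            mul_le_mul_of_nonneg_left h12 (by positivity)
        _ = 3 * t * ((1 + 2 * a * t) * |q|) + 3 * t * (|(v : ℝ)| * p) := by ring
        _ ≤ w * r + 3 * (w * r) := by linarith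
        _ = 4 * (w * r) := by ring

lemma mulp_injective {u v : ℤ} (hu : 0 < u) : Function.Injective (mulp u v) := by
  intro x y h
  simp only [mulp, Prod.mk.injEq] at h
  obtain ⟨h1, h2⟩ := h
  have h3 : (u ^ 2 + v ^ 2) * (x.1 - y.1) = 0 := by linear_combination u * h1 + v * h2
  have h4 : (u ^ 2 + v ^ 2) * (x.2 - y.2) = 0 := by linear_combination u * h2 - v * h1
  have h5 : u ^ 2 + v ^ 2 ≠ 0 := by positivity
  have h6 : x.1 = y.1 := by
    rcases mul_eq_zero.mp h3 with h | h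
    · exact absurd h h5
    · linarith
  have h7 : x.2 = y.2 := by
    rcases mul_eq_zero.mp h4 with h | h
    · exact absurd h h5
    · linarith
  exact Prod.ext h6 h7

lemma im_pos {a : ℤ} (ha : 1 ≤ a) (k : ℕ) {t : ℤ} (ht : 1 ≤ t) {y : ℤ × ℤ}
    (hy : y ∈ S a k (4 * t)) :
    0 < (mulp (1 + 2 * a * t) (2 * a) y).2 ∧ (mulp (1 + 2 * a * t) (-(2 * a)) y).2 < 0 := by
  have ha' : (1 : ℝ) ≤ a := by exact_mod_cast ha
  have ht' : (1 : ℝ) ≤ t := by exact_mod_cast ht
  obtain ⟨h1, h2⟩ := angle_S ha k (4 * t) (by linarith) y hy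
  push_cast at h2
  have hn := norm_rad ha hy
  set r := rad a k (4 * t) with hr
  have hr0 : 0 < r := rad_pos ha k _
  set p : ℝ := (y.1 : ℝ) with hp
  set q : ℝ := (y.2 : ℝ) with hq
  have hq0 : 0 ≤ |q| := abs_nonneg q
  have hqr : 3 * t * |q| ≤ r := by linarith
  have hqr3 : 3 * |q| ≤ r := by nlinarith
  have hp1 : r - |q| ≤ p := by
    have h5 : (r - |q|) ^ 2 ≤ p ^ 2 := by
      have h6 : |q| ^ 2 = q ^ 2 := sq_abs q
      nlinarith
    exact (le_abs_self _).trans (abs_le_of_sq_le_sq h5 h1.le)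
  have hat : (1 : ℝ) ≤ a * t := by nlinarith
  have key : (1 + 2 * a * t) * |q| < 2 * a * p := by
    have h3 : (a * t) * |q| * 3 ≤ a * r := by nlinarith
    have h4 : a * (3 * |q|) ≤ a * r := mul_le_mul_of_nonneg_left hqr3 (by linarith)
    have h5 : a * (r - |q|) ≤ a * p := mul_le_mul_of_nonneg_left hp1 (by linarith)
    have h6 : |q| ≤ a * |q| := le_mul_of_one_le_left hq0 ha'
    have h7 : 0 < a * r := mul_pos (by linarith) hr0
    by_cases hq00 : |q| = 0
    · rw [hq00] at h5 ⊢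
      nlinarith
    · have hq1 : 0 < |q| := lt_of_le_of_ne hq0 (Ne.symm hq00)
      nlinarith
  have hqle := le_abs_self q
  have hqge := neg_abs_le q
  have hu : (0 : ℝ) < 1 + 2 * a * t := by nlinarith
  constructor
  · have : (0 : ℝ) < (1 + 2 * a * t) * q + 2 * a * p := by nlinarith
    rw [hp, hq] at this
    simp only [mulp]
    exact_mod_cast this
  · have : (1 + 2 * a * t) * q + -(2 * a) * p < (0 : ℝ) := by nlinarith
    rw [hp, hq] at this
    simp only [mulp]
    exact_mod_cast this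

lemma card_S {a : ℤ} (ha : 1 ≤ a) (k : ℕ) : ∀ t : ℤ, 1 ≤ t → (S a k t).card = 2 ^ k := by
  induction k with
  | zero => intro t _; rw [S]; simp
  | succ k ih =>
    intro t ht
    have hu : 0 < 1 + 2 * a * t := by positivity
    have h1 := ih (4 * t) (by linarith)
    rw [S, Finset.card_union_of_disjoint, Finset.card_image_of_injective _ (mulp_injective hu),
      Finset.card_image_of_injective _ (mulp_injective hu), h1]
    · ring
    · rw [Finset.disjoint_left]
      intro z hz hz'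
      rw [Finset.mem_image] at hz hz'
      obtain ⟨y, hy, rfl⟩ := hz
      obtain ⟨y', hy', h⟩ := hz'
      have h2 := (im_pos ha k ht hy).1
      have h3 := (im_pos ha k ht hy').2
      rw [h] at h3
      omega

end Pool.Agent.Run7.h129.Arc
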