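import Mathlib
import Pool.Agent.Run7.h129.Arc

/-!
# Points of a run of a square progression with constant sum of squares
-/

open Finset

namespace Pool.Agent.Run7.h129.Arc

/-- The case in which the midpoint of the run is nonnegative. -/
lemma config_pos (k : ℕ) (a b m : ℤ) (H : ℕ) (M : ℝ) (ha : 1 ≤ a) (hH : 1 ≤ H)
    (hmid : (0 : ℝ) ≤ 2 * a * (2 * m + H) + 2 * b)
    (hU : (2 * a * (m + H) + b : ℝ) ≤ M)
    (hcond : 4 * (25 * 2 ^ k * M) ^ k ≤ (H : ℝ) ^ (k + 1)) :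
    ∃ (Z : Finset (ℤ × ℤ)) (c : ℤ), Z.card = 2 ^ k ∧ ∀ z ∈ Z, (m ≤ z.1 ∧ z.1 < m + H) ∧
      (m ≤ z.2 ∧ z.2 < m + H) ∧ (2 * a * z.1 + b) ^ 2 + (2 * a * z.2 + b) ^ 2 = c := by
  have ha' : (1 : ℝ) ≤ a := by exact_mod_cast ha
  have hH' : (1 : ℝ) ≤ H := by exact_mod_cast hH
  have haH : (1 : ℝ) ≤ a * H := by nlinarith
  set U : ℝ := 2 * a * (m + H) + b with hUdef
  have hUa : a * H ≤ U := by rw [hUdef]; linarith
  have hM0 : 0 < M := by linarith
  set t : ℤ := ⌈4 * M / (a * H)⌉ with ht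
  have h1 : 4 * M / (a * H) ≤ t := Int.le_ceil _
  have h2 : (t : ℝ) < 4 * M / (a * H) + 1 := Int.ceil_lt_add_one _
  have h3 : 4 * M ≤ t * (a * H) := by rwa [div_le_iff₀ (by linarith)] at h1
  have h4 : (t : ℝ) * (a * H) < 4 * M + a * H := by
    have : (t : ℝ) - 1 < 4 * M / (a * H) := by linarith
    rw [lt_div_iff₀ (by linarith)] at this
    linarith
  have ht4 : (4 : ℝ) ≤ t := by
    by_contra hcon
    push Not at hcon
    nlinarith
  have ht1 : 1 ≤ t := by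
    have : (1 : ℝ) ≤ t := by linarith
    exact_mod_cast this
  have h5 : (a * t : ℝ) * H ≤ 5 * M := by nlinarith
  set r := rad a k t with hr
  have hr0 : 0 < r := rad_pos ha k t
  have hrH : 4 * r ≤ H := by
    have h6 := rad_le ha k t ht1
    rw [← hr] at h6
    have h7 : r * (H : ℝ) ^ k ≤ (25 * 2 ^ k * M) ^ k := by
      calc r * (H : ℝ) ^ k ≤ (5 * 2 ^ k * (a * t : ℝ)) ^ k * (H : ℝ) ^ k :=
            mul_le_mul_of_nonneg_right h6 (by positivity)
        _ = (5 * 2 ^ k * ((a * t : ℝ) * H)) ^ k := by rw [← mul_pow]; ring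
        _ ≤ (5 * 2 ^ k * (5 * M)) ^ k := by
            refine pow_le_pow_left₀ (by positivity) ?_ k
            exact mul_le_mul_of_nonneg_left h5 (by positivity)
        _ = (25 * 2 ^ k * M) ^ k := by ring
    have h8 : (0 : ℝ) < (H : ℝ) ^ k := by positivity
    have h9 : 4 * r * (H : ℝ) ^ k ≤ H * (H : ℝ) ^ k := by
      rw [pow_succ] at hcond
      linarith
    exact le_of_mul_le_mul_right h9 h8
  set τ : ℝ := 4 / (3 * t) with hτ
  have hτ0 : 0 < τ := by positivity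
  have hτt : τ * t = 4 / 3 := by rw [hτ]; field_simp
  have hτ3 : τ ≤ 1 / 3 := by nlinarith
  have hτM : 3 * τ * M ≤ a * H := by
    have : τ * (4 * M) ≤ τ * (t * (a * H)) := mul_le_mul_of_nonneg_left h3 hτ0.le
    have h10 : τ * (t * (a * H)) = 4 / 3 * (a * H) := by rw [← mul_assoc, hτt]
    linarith
  set ρ : ℝ := (1 + τ) * r with hρ
  have hρ0 : 0 < ρ := by positivity
  have hρH : 3 * ρ ≤ H := by nlinarith
  set e : ℤ := ⌈(U / ρ - b) / (2 * a)⌉ - 1 with he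
  set μ : ℤ := b + 2 * a * e with hμ
  have e1 : (e : ℝ) < (U / ρ - b) / (2 * a) := by
    have := Int.ceil_lt_add_one ((U / ρ - b) / (2 * a))
    rw [he]
    push_cast
    linarith
  have e2 : (U / ρ - b) / (2 * a) ≤ e + 1 := by
    have := Int.le_ceil ((U / ρ - b) / (2 * a))
    rw [he]
    push_cast
    linarith
  have hμ1 : (μ : ℝ) * ρ < U := by
    rw [lt_div_iff₀ (by linarith)] at e1
    have : (μ : ℝ) < U / ρ := by
      rw [hμ]
      push_cast
      linarith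
    rwa [lt_div_iff₀ hρ0] at this
  have hμ2 : U ≤ (μ + 2 * a) * ρ := by
    rw [div_le_iff₀ (by linarith)] at e2
    have : U / ρ ≤ μ + 2 * a := by
      rw [hμ]
      push_cast
      linarith
    rwa [div_le_iff₀ hρ0] at this
  have haρ : 3 * (2 * a * ρ) ≤ 2 * (a * H) := by nlinarith
  have hμρ : 0 < (μ : ℝ) * ρ := by nlinarith
  have hμ0' : (0 : ℝ) < μ := (pos_iff_pos_of_mul_pos hμρ).mpr hρ0
  have hμ0 : 0 < μ := by exact_mod_cast hμ0'
  -- the map
  set f : ℤ × ℤ → ℤ × ℤ := fun z => ((μ * (z.1 - z.2) - b) / (2 * a), (μ * (z.1 + z.2) - b) / (2 * a))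
    with hf
  have h2a : (0 : ℤ) < 2 * a := by linarith
  have hfz : ∀ z ∈ S a k t, 2 * a * (f z).1 + b = μ * (z.1 - z.2) ∧
      2 * a * (f z).2 + b = μ * (z.1 + z.2) := by
    intro z hz
    obtain ⟨e1, f1, hz1, hz2⟩ := cong_S a k t z hz
    have d1 : 2 * a ∣ μ * (z.1 - z.2) - b := ⟨e + μ * (e1 - f1), by rw [hz1, hz2, hμ]; ring⟩
    have d2 : 2 * a ∣ μ * (z.1 + z.2) - b := ⟨e + μ * (e1 + f1), by rw [hz1, hz2, hμ]; ring⟩
    simp only [hf]
    rw [Int.mul_ediv_cancel' d1, Int.mul_ediv_cancel' d2]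
    constructor <;> ring
  have hinj : Set.InjOn f (S a k t) := by
    intro z hz z' hz' h
    have h11 := hfz z hz
    have h12 := hfz z' hz'
    rw [h] at h11
    have h13 : μ * (z.1 - z.2) = μ * (z'.1 - z'.2) := by rw [← h11.1, ← h12.1]
    have h14 : μ * (z.1 + z.2) = μ * (z'.1 + z'.2) := by rw [← h11.2, ← h12.2]
    have h15 := mul_left_cancel₀ hμ0.ne' h13
    have h16 := mul_left_cancel₀ hμ0.ne' h14
    exact Prod.ext (by linarith) (by linarith)
  refine ⟨(S a k t).image f, 2 * μ ^ 2 * Nm a k t, ?_, ?_⟩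
  · rw [Finset.card_image_of_injOn hinj, card_S ha k t ht1]
  · intro z hz
    rw [Finset.mem_image] at hz
    obtain ⟨y, hy, rfl⟩ := hz
    obtain ⟨h17, h18⟩ := hfz y hy
    obtain ⟨h19, h20⟩ := angle_S ha k t ht1 y hy
    have hn := norm_rad ha hy
    rw [← hr] at h20 hn
    set p : ℝ := (y.1 : ℝ) with hp
    set q : ℝ := (y.2 : ℝ) with hq
    have hq0 : 0 ≤ |q| := abs_nonneg q
    have hqτ : |q| ≤ τ * r := by
      have h21 : |q| * (3 * t) ≤ 4 * r := by linarith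
      rw [hτ, div_mul_eq_mul_div, le_div_iff₀ (by linarith)]
      exact h21
    have hqr : |q| ≤ r := by nlinarith
    have hp1 : r - |q| ≤ p := by
      have h5 : (r - |q|) ^ 2 ≤ p ^ 2 := by
        have h6 : |q| ^ 2 = q ^ 2 := sq_abs q
        nlinarith
      exact (le_abs_self _).trans (abs_le_of_sq_le_sq h5 h19.le)
    have hpr : p ≤ r := by nlinarith
    have hqle := le_abs_self q
    have hqge := neg_abs_le q
    -- bounds
    have hlow : ∀ s : ℝ, r - 2 * |q| ≤ s → 2 * a * m + b ≤ μ * s := by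
      intro s hs
      have h22 : (1 - 2 * τ) * r ≤ s := by nlinarith
      have h23 : (μ : ℝ) * ((1 - 2 * τ) * r) ≤ μ * s := mul_le_mul_of_nonneg_left h22 hμ0'.le
      refine le_trans ?_ h23
      have h24 : (2 * a * m + b : ℝ) = U - 2 * (a * H) := by rw [hUdef]; ring
      rw [h24]
      have h25 : (μ : ℝ) * r ≤ M := by
        have : (μ : ℝ) * r ≤ μ * ρ := by
          refine mul_le_mul_of_nonneg_left ?_ hμ0'.le
          rw [hρ]
          nlinarith
        linarith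
      have h26 : 3 * τ * (μ * r) ≤ 3 * τ * M := mul_le_mul_of_nonneg_left h25 (by positivity)
      have h27 : (μ + 2 * a) * ρ = μ * ((1 - 2 * τ) * r) + 3 * τ * (μ * r) + 2 * a * ρ := by
        rw [hρ]; ring
      linarith
    have hup : ∀ s : ℝ, s ≤ r + |q| → μ * s < 2 * a * (m + H) + b := by
      intro s hs
      have h22 : s ≤ ρ := by rw [hρ]; nlinarith
      have h23 : (μ : ℝ) * s ≤ μ * ρ := mul_le_mul_of_nonneg_left h22 hμ0'.le
      rw [← hUdef]
      linarith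
    have l1 := hlow (p - q) (by linarith)
    have l2 := hlow (p + q) (by linarith)
    have u1 := hup (p - q) (by linarith)
    have u2 := hup (p + q) (by linarith)
    have l1' : 2 * a * m + b ≤ μ * (y.1 - y.2) := by rw [hp, hq] at l1; exact_mod_cast l1
    have l2' : 2 * a * m + b ≤ μ * (y.1 + y.2) := by rw [hp, hq] at l2; exact_mod_cast l2
    have u1' : μ * (y.1 - y.2) < 2 * a * (m + H) + b := by rw [hp, hq] at u1; exact_mod_cast u1
    have u2' : μ * (y.1 + y.2) < 2 * a * (m + H) + b := by rw [hp, hq] at u2; exact_mod_cast u2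
    rw [← h17] at l1' u1'
    rw [← h18] at l2' u2'
    have cancel_le : ∀ x y : ℤ, 2 * a * x + b ≤ 2 * a * y + b → x ≤ y := by
      intro x y h
      exact le_of_mul_le_mul_left (by linarith) h2a
    have cancel_lt : ∀ x y : ℤ, 2 * a * x + b < 2 * a * y + b → x < y := by
      intro x y h
      exact lt_of_mul_lt_mul_left (by linarith) h2a.le
    refine ⟨⟨cancel_le _ _ l1', cancel_lt _ _ u1'⟩, ⟨cancel_le _ _ l2', cancel_lt _ _ u2'⟩, ?_⟩
    rw [h17, h18, ← norm_S a k t y hy]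
    ring

/-- **Points of a run with constant sum of squares.** -/
theorem config (k : ℕ) (a b m : ℤ) (H : ℕ) (M : ℝ) (ha : 1 ≤ a) (hMH : (H : ℝ) ≤ M)
    (hH : 1 ≤ H) (hM : ∀ x : ℤ, m ≤ x → x < m + H → |(2 * a * x + b : ℝ)| ≤ M)
    (hcond : 4 * (75 * 2 ^ k * M) ^ k ≤ (H : ℝ) ^ (k + 1)) :
    ∃ (Z : Finset (ℤ × ℤ)) (c : ℤ), Z.card = 2 ^ k ∧ ∀ z ∈ Z, (m ≤ z.1 ∧ z.1 < m + H) ∧
      (m ≤ z.2 ∧ z.2 < m + H) ∧ (2 * a * z.1 + b) ^ 2 + (2 * a * z.2 + b) ^ 2 = c := by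
  have ha' : (1 : ℝ) ≤ a := by exact_mod_cast ha
  have hH' : (1 : ℝ) ≤ H := by exact_mod_cast hH
  have hM1 : 1 ≤ M := by linarith
  -- `4 ≤ H`
  have hH4 : (4 : ℝ) ≤ H := by
    have h1 : (H : ℝ) ^ k ≤ (75 * 2 ^ k * M) ^ k := by
      refine pow_le_pow_left₀ (by positivity) ?_ k
      have : (1 : ℝ) ≤ 75 * 2 ^ k := by
        have : (1 : ℝ) ≤ 2 ^ k := one_le_pow₀ (by norm_num)
        linarith
      nlinarith
    have h2 : (0 : ℝ) < (H : ℝ) ^ k := by positivity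
    have h3 : 4 * (H : ℝ) ^ k ≤ H * (H : ℝ) ^ k := by
      rw [pow_succ] at hcond
      linarith
    exact le_of_mul_le_mul_right h3 h2
  have hH4' : 4 ≤ H := by exact_mod_cast hH4
  -- bounds at the two end points
  have b0 := abs_le.mp (hM m le_rfl (by omega))
  have b1 := abs_le.mp (hM (m + (H - 1)) (by omega) (by omega))
  push_cast at b1
  have hspan : a * (H - 1) ≤ M := by linarith [b0.1, b1.2]
  have h2a : 2 * a ≤ M := by nlinarith
  have hcond' : 4 * (25 * 2 ^ k * (3 * M)) ^ k ≤ (H : ℝ) ^ (k + 1) := by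
    rw [show (25 * 2 ^ k * (3 * M) : ℝ) = 75 * 2 ^ k * M by ring]
    exact hcond
  by_cases hmid : (0 : ℝ) ≤ 2 * a * (2 * m + H) + 2 * b
  · exact config_pos k a b m H (3 * M) ha hH hmid (by linarith [b1.2]) hcond'
  · push Not at hmid
    obtain ⟨Z, c, hZ, hz⟩ := config_pos k a (-b) (1 - m - H) H (3 * M) ha hH
      (by push_cast; linarith) (by push_cast; linarith [b0.1]) hcond'
    refine ⟨Z.image (fun z => (-z.1, -z.2)), c, ?_, ?_⟩
    · rw [Finset.card_image_of_injective, hZ]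
      intro z z' h
      simp only [Prod.mk.injEq, neg_inj] at h
      exact Prod.ext h.1 h.2
    · intro z hz'
      rw [Finset.mem_image] at hz'
      obtain ⟨y, hy, rfl⟩ := hz'
      obtain ⟨⟨h1, h2⟩, ⟨h3, h4⟩, h5⟩ := hz y hy
      refine ⟨⟨?_, ?_⟩, ⟨?_, ?_⟩, ?_⟩
      · simp only; linarith
      · simp only; linarith
      · simp only; linarith
      · simp only; linarith
      · rw [← h5]
        simp only
        ring

/-- The number `r_A(s)` of ordered pairs `(a, b)` of elements of `A` with `a + b = s`. -/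
noncomputable def rep (A : Set ℕ) (s : ℕ) : ℕ :=
  {p : ℕ × ℕ | p.1 ∈ A ∧ p.2 ∈ A ∧ p.1 + p.2 = s}.ncard

lemma rep_finite (A : Set ℕ) (s : ℕ) :
    {p : ℕ × ℕ | p.1 ∈ A ∧ p.2 ∈ A ∧ p.1 + p.2 = s}.Finite := by
  refine ((Finset.range (s + 1) ×ˢ Finset.range (s + 1)).finite_toSet).subset ?_
  rintro ⟨x, y⟩ ⟨_, _, h⟩
  simp only at h
  simp only [Finset.coe_product, Finset.coe_range, Set.mem_prod, Set.mem_Iio]
  omega

/-- Pigeonhole: `Z` is a set of pairs of indices such that the sums of the corresponding values are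
within distance `2 T` of a number `c`. -/
lemma pigeon {ι : Type*} [DecidableEq ι] (A : Set ℕ) (s : ι → ℕ) (Z : Finset (ι × ι)) (T c : ℝ)
    (hT : 0 ≤ T) (hZ : Z.Nonempty) (hA : ∀ z ∈ Z, s z.1 ∈ A ∧ s z.2 ∈ A)
    (hinj : ∀ z ∈ Z, ∀ z' ∈ Z, s z.1 = s z'.1 → s z.2 = s z'.2 → z = z')
    (hc : ∀ z ∈ Z, |((s z.1 : ℝ) + s z.2) - c| ≤ 2 * T) :
    ∃ n : ℕ, (Z.card : ℝ) ≤ (4 * T + 1) * rep A n ∧ |(n : ℝ) - c| ≤ 2 * T := by
  classical
  set f : ι × ι → ℕ := fun z => s z.1 + s z.2 with hf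
  set W : Finset ℕ := Z.image f with hW
  have hWne : W.Nonempty := hZ.image f
  have hWc : ∀ n ∈ W, |(n : ℝ) - c| ≤ 2 * T := by
    intro n hn
    rw [hW, Finset.mem_image] at hn
    obtain ⟨z, hz, rfl⟩ := hn
    have := hc z hz
    simp only [hf]
    push_cast
    exact this
  have hWcard : (W.card : ℝ) ≤ 4 * T + 1 := by
    set lo := W.min' hWne with hlo
    set hi := W.max' hWne with hhi
    have h1 : W ⊆ Finset.Icc lo hi := fun n hn =>
      Finset.mem_Icc.mpr ⟨W.min'_le n hn, W.le_max' n hn⟩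
    have h2 := Finset.card_le_card h1
    rw [Nat.card_Icc] at h2
    have h3 := abs_le.mp (hWc lo (W.min'_mem hWne))
    have h4 := abs_le.mp (hWc hi (W.max'_mem hWne))
    have h5 : lo ≤ hi := W.min'_le _ (W.max'_mem hWne)
    have h6 : ((hi + 1 - lo : ℕ) : ℝ) = hi + 1 - lo := by
      rw [Nat.cast_sub (by omega)]
      push_cast
      ring
    have h7 : (W.card : ℝ) ≤ ((hi + 1 - lo : ℕ) : ℝ) := by exact_mod_cast h2
    rw [h6] at h7
    linarith [h3.1, h4.2]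
  have hWpos : (0 : ℝ) < W.card := by exact_mod_cast hWne.card_pos
  by_contra hcon
  push Not at hcon
  have hfib : ∀ n ∈ W, ((Z.filter (fun z => f z = n)).card : ℝ) ≤ rep A n := by
    intro n hn
    have h1 : (((Z.filter (fun z => f z = n)).image (fun z => (s z.1, s z.2)) : Finset (ℕ × ℕ)) :
        Set (ℕ × ℕ)) ⊆ {p : ℕ × ℕ | p.1 ∈ A ∧ p.2 ∈ A ∧ p.1 + p.2 = n} := by
      intro p hp
      rw [Finset.mem_coe, Finset.mem_image] at hp
      obtain ⟨z, hz, rfl⟩ := hp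
      rw [Finset.mem_filter] at hz
      exact ⟨(hA z hz.1).1, (hA z hz.1).2, hz.2⟩
    have h2 := Set.ncard_le_ncard h1 (rep_finite A n)
    rw [Set.ncard_coe_finset, Finset.card_image_of_injOn] at h2
    · rw [rep]
      exact_mod_cast h2
    · intro z hz z' hz' h
      rw [Finset.mem_coe, Finset.mem_filter] at hz hz'
      simp only [Prod.mk.injEq] at h
      exact hinj z hz.1 z' hz'.1 h.1 h.2
  have hsum : (Z.card : ℝ) = ∑ n ∈ W, ((Z.filter (fun z => f z = n)).card : ℝ) := by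
    have := Finset.card_eq_sum_card_image f Z
    rw [← hW] at this
    exact_mod_cast this
  have hT1 : (0 : ℝ) < 4 * T + 1 := by linarith
  have hlt : ∀ n ∈ W, (4 * T + 1) * ((Z.filter (fun z => f z = n)).card : ℝ) < Z.card := by
    intro n hn
    have h1 : ¬ ((Z.card : ℝ) ≤ (4 * T + 1) * rep A n) := by
      intro h
      exact absurd (hWc n hn) (not_le.mpr (hcon n h))
    push Not at h1
    exact lt_of_le_of_lt (mul_le_mul_of_nonneg_left (hfib n hn) hT1.le) h1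
  have h8 : (4 * T + 1) * (Z.card : ℝ) < W.card * (Z.card : ℝ) := by
    calc (4 * T + 1) * (Z.card : ℝ)
        = ∑ n ∈ W, (4 * T + 1) * ((Z.filter (fun z => f z = n)).card : ℝ) := by
          rw [← Finset.mul_sum, ← hsum]
      _ < ∑ n ∈ W, (Z.card : ℝ) := Finset.sum_lt_sum_of_nonempty hWne hlt
      _ = W.card * (Z.card : ℝ) := by rw [Finset.sum_const, nsmul_eq_mul]
  have h9 : (W.card : ℝ) * Z.card ≤ (4 * T + 1) * Z.card :=
    mul_le_mul_of_nonneg_right hWcard (Nat.cast_nonneg _)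
  linarith

/-- **One run of a square progression.** -/
theorem run (A : Set ℕ) (k : ℕ) (a b m : ℤ) (H : ℕ) (M α δ T : ℝ) (s : ℤ → ℕ) (ha : 1 ≤ a)
    (hT : 0 ≤ T) (hMH : (H : ℝ) ≤ M) (hH : 1 ≤ H)
    (hM : ∀ x : ℤ, m ≤ x → x < m + H → |(2 * a * x + b : ℝ)| ≤ M)
    (hA : ∀ x : ℤ, m ≤ x → x < m + H → s x ∈ A)
    (hinj : Set.InjOn s (Set.Ico m (m + H)))
    (hs : ∀ x : ℤ, m ≤ x → x < m + H → |(s x : ℝ) - (α * (2 * a * x + b) ^ 2 + δ)| ≤ T)
    (hcond : 4 * (75 * 2 ^ k * M) ^ k ≤ (H : ℝ) ^ (k + 1)) :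
    ∃ n : ℕ, (2 : ℝ) ^ k ≤ (4 * T + 1) * rep A n := by
  obtain ⟨Z, c, hZ, hz⟩ := config k a b m H M ha hMH hH hM hcond
  obtain ⟨n, hn, -⟩ := pigeon A s Z T (α * c + 2 * δ) hT
    (Finset.card_pos.mp (by rw [hZ]; positivity))
    (fun z hz' => ⟨hA _ (hz z hz').1.1 (hz z hz').1.2, hA _ (hz z hz').2.1.1 (hz z hz').2.1.2⟩)
    (fun z hz1 z' hz2 h1 h2 => Prod.ext
      (hinj ⟨(hz z hz1).1.1, (hz z hz1).1.2⟩ ⟨(hz z' hz2).1.1, (hz z' hz2).1.2⟩ h1)
      (hinj ⟨(hz z hz1).2.1.1, (hz z hz1).2.1.2⟩ ⟨(hz z' hz2).2.1.1, (hz z' hz2).2.1.2⟩ h2))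
    (fun z hz' => by
      obtain ⟨⟨h1, h2⟩, ⟨h3, h4⟩, h5⟩ := hz z hz'
      have h6 := abs_le.mp (hs z.1 h1 h2)
      have h7 := abs_le.mp (hs z.2 h3 h4)
      have h8 : (c : ℝ) = (2 * a * z.1 + b) ^ 2 + (2 * a * z.2 + b) ^ 2 := by
        rw [← h5]; push_cast; ring
      rw [h8, abs_le]
      constructor <;> linarith [h6.1, h6.2, h7.1, h7.2])
  refine ⟨n, ?_⟩
  rw [hZ] at hn
  exact_mod_cast hn

end Pool.Agent.Run7.h129.Arc
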