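import Mathlib
import Pool.Agent.Run7.h129.Run
import Pool.Agent.N715.QC.Diff

/-!
# One polynomial piece
-/

open Finset Polynomial
open Pool.Agent.N715.QC (growth)

namespace Pool.Agent.Run7.h129.Arc

/-- An arithmetic progression of sums: `ℓ` pairs with the same sum. -/
lemma linear_case (A : Set ℕ) (ℓ : ℕ) (s : ℕ → ℕ) (u v G : ℝ) (hG : 0 ≤ G) (hℓ : 1 ≤ ℓ)
    (hinj : Set.InjOn s (Set.Iio ℓ)) (hA : ∀ t < ℓ, s t ∈ A)
    (herr : ∀ t < ℓ, |(s t : ℝ) - (u * t + v)| ≤ G) :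
    ∃ n : ℕ, (ℓ : ℝ) ≤ (4 * G + 1) * rep A n := by
  set Z : Finset (ℕ × ℕ) := (range ℓ).image (fun t => (t, ℓ - 1 - t)) with hZ
  have hcard : Z.card = ℓ := by
    rw [hZ, Finset.card_image_of_injective, Finset.card_range]
    intro x y h
    simp only [Prod.mk.injEq] at h
    exact h.1
  have hmem : ∀ z ∈ Z, z.1 < ℓ ∧ z.2 < ℓ ∧ (z.1 : ℝ) + z.2 = ℓ - 1 := by
    intro z hz
    rw [hZ, Finset.mem_image] at hz
    obtain ⟨t, ht, rfl⟩ := hz
    rw [Finset.mem_range] at ht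
    refine ⟨ht, ?_, ?_⟩
    · simp only; omega
    · simp only
      rw [Nat.cast_sub (by omega), Nat.cast_sub hℓ]
      push_cast
      ring
  obtain ⟨n, hn, -⟩ := pigeon A s Z G (u * (ℓ - 1) + 2 * v) hG
    (Finset.card_pos.mp (by rw [hcard]; exact hℓ))
    (fun z hz => ⟨hA _ (hmem z hz).1, hA _ (hmem z hz).2.1⟩)
    (fun z hz z' hz' h1 h2 => Prod.ext (hinj (hmem z hz).1 (hmem z' hz').1 h1)
      (hinj (hmem z hz).2.1 (hmem z' hz').2.1 h2))
    (fun z hz => by
      obtain ⟨h1, h2, h3⟩ := hmem z hz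
      have h4 := abs_le.mp (herr z.1 h1)
      have h5 := abs_le.mp (herr z.2 h2)
      rw [← h3, abs_le]
      constructor <;> nlinarith [h4.1, h4.2, h5.1, h5.2])
  exact ⟨n, by rw [hcard] at hn; exact hn⟩

/-- **One polynomial piece.** -/
theorem piece (A : Set ℕ) (k : ℕ) (P : ℝ[X]) (ℓ h : ℕ) (s : ℕ → ℕ) (B G : ℝ) (hG : 0 ≤ G)
    (hinj : Set.InjOn s (Set.Iio ℓ)) (hA : ∀ t < ℓ, s t ∈ A)
    (hint : ∀ t < ℓ, ∃ z : ℤ, P.eval (t : ℝ) = z) (hB : ∀ t < ℓ, |P.eval (t : ℝ)| ≤ B)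
    (herr : ∀ t < ℓ, |(s t : ℝ) - P.eval (t : ℝ)| ≤ G)
    (hdeg : P.natDegree * h < ℓ) (hh : 2 * h < ℓ) (hh2 : 2 ≤ h) (hk : 2 ^ k ≤ ℓ)
    (hcub : 8 * B < (h : ℝ) ^ 3)
    (hcond : 4 * (1200 * 2 ^ k * B) ^ k ≤ (h : ℝ) ^ (2 * k + 1)) :
    ∃ n : ℕ, (2 : ℝ) ^ k ≤ (4 * G + 1) * rep A n := by
  have hh0 : (2 : ℝ) ≤ h := by exact_mod_cast hh2
  have hB0 : 0 ≤ B := (abs_nonneg _).trans (hB 0 (by omega))
  rcases Nat.lt_or_ge P.natDegree 2 with hlt | hge
  · -- linear
    have hP : ∀ x : ℝ, P.eval x = P.coeff 1 * x + P.coeff 0 := by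
      intro x
      rw [eval_eq_sum_range' hlt]
      simp [Finset.sum_range_succ]
      ring
    obtain ⟨n, hn⟩ := linear_case A ℓ s (P.coeff 1) (P.coeff 0) G hG (by omega) hinj hA
      (fun t ht => by rw [← hP]; exact herr t ht)
    refine ⟨n, le_trans ?_ hn⟩
    exact_mod_cast hk
  have hP0 : P ≠ 0 := by
    rintro rfl
    simp at hge
  rcases Nat.lt_or_ge P.natDegree 3 with hlt | hge3
  swap
  · -- degree at least three
    exfalso
    have h1 := growth (by omega) hdeg hP0 B hint hB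
    have h2 : ((h : ℝ) / 2) ^ P.natDegree ≤ B := by
      rw [div_pow, div_le_iff₀ (by positivity)]
      linarith
    have h3 : ((h : ℝ) / 2) ^ 3 ≤ ((h : ℝ) / 2) ^ P.natDegree :=
      pow_le_pow_right₀ (by linarith) hge3
    have h4 : ((h : ℝ) / 2) ^ 3 = (h : ℝ) ^ 3 / 8 := by ring
    linarith
  · -- quadratic
    have h2 : P.natDegree = 2 := by omega
    obtain ⟨a, b, c, ha, hP⟩ : ∃ a b c : ℝ, a ≠ 0 ∧ ∀ x : ℝ, P.eval x = a * x ^ 2 + b * x + c := by
      refine ⟨P.coeff 2, P.coeff 1, P.coeff 0, ?_, fun x => ?_⟩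
      · have h3 : P.leadingCoeff ≠ 0 := by
          intro h3
          rw [leadingCoeff_eq_zero] at h3
          exact hP0 h3
        rwa [leadingCoeff, h2] at h3
      · rw [eval_eq_sum_range, h2]
        simp [Finset.sum_range_succ]
        ring
    have hhr : (0 : ℝ) < h := by linarith
    obtain ⟨z0, hz0⟩ := hint 0 (by omega)
    obtain ⟨z1, hz1⟩ := hint 1 (by omega)
    obtain ⟨z2, hz2⟩ := hint 2 (by omega)
    rw [hP] at hz0 hz1 hz2
    push_cast at hz0 hz1 hz2
    set d : ℤ := z2 - 2 * z1 + z0 with hd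
    set g : ℤ := 2 * (z1 - z0) - d with hg
    have hq : 2 * a = ((d : ℤ) : ℝ) := by rw [hd]; push_cast; linarith
    have hb : 2 * b = ((g : ℤ) : ℝ) := by rw [hg, hd]; push_cast; linarith
    have b0 := hB 0 (by omega)
    have b1 := hB h (by omega)
    have b2 := hB (2 * h) (by omega)
    rw [hP] at b0 b1 b2
    push_cast at b0 b1 b2
    rw [abs_le] at b0 b1 b2
    have ha1 : |a| * h ^ 2 ≤ 2 * B := by
      rw [← abs_of_nonneg (by positivity : (0 : ℝ) ≤ (h : ℝ) ^ 2), ← abs_mul, abs_le]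
      constructor <;> nlinarith
    have hb1 : |b| * h ≤ 4 * B := by
      have : |b * h| ≤ 4 * B := by
        have h5 := abs_le.mp (show |a * (h : ℝ) ^ 2| ≤ 2 * B by
          rwa [abs_mul, abs_of_nonneg (by positivity : (0 : ℝ) ≤ (h : ℝ) ^ 2)])
        rw [abs_le]
        constructor <;> nlinarith
      rwa [abs_mul, abs_of_nonneg hhr.le] at this
    have hd0 : d ≠ 0 := by
      intro h0
      rw [h0] at hq
      apply ha
      push_cast at hq
      linarith
    have hdabs : (1 : ℝ) ≤ |(d : ℝ)| := by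
      have := Int.one_le_abs hd0
      exact_mod_cast this
    have hda : |(d : ℝ)| = 2 * |a| := by rw [← hq, abs_mul]; norm_num
    -- sign
    obtain ⟨σ, hσ, hσd⟩ : ∃ σ : ℤ, σ ^ 2 = 1 ∧ σ * d = |d| := by
      rcases le_total 0 d with h3 | h3
      · exact ⟨1, by norm_num, by rw [abs_of_nonneg h3]; ring⟩
      · exact ⟨-1, by norm_num, by rw [abs_of_nonpos h3]; ring⟩
    have hσr : (σ : ℝ) ^ 2 = 1 := by exact_mod_cast hσ
    have hσabs : |(σ : ℝ)| = 1 := by
      have h6 : |(σ : ℝ)| ^ 2 = 1 := by rw [sq_abs]; exact hσr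
      have h7 : 0 ≤ |(σ : ℝ)| := abs_nonneg _
      nlinarith
    have hlin : ∀ x : ℝ, 2 * ((|d| : ℤ) : ℝ) * x + ((σ * g : ℤ) : ℝ) = σ * (4 * a * x + 2 * b) := by
      intro x
      rw [← hσd]
      push_cast
      rw [← hq, ← hb]
      ring
    have hMb : ∀ x : ℤ, (0 : ℤ) ≤ x → x < 0 + (h : ℤ) →
        |(2 * ((|d| : ℤ) : ℝ) * x + ((σ * g : ℤ) : ℝ) : ℝ)| ≤ 16 * B / h := by
      intro x hx0 hx1
      rw [hlin, abs_mul, hσabs, one_mul, le_div_iff₀ hhr]
      have hx0' : (0 : ℝ) ≤ x := by exact_mod_cast hx0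
      have hx1' : (x : ℝ) ≤ h := by
        have : x ≤ (h : ℤ) := by linarith
        exact_mod_cast this
      calc |4 * a * x + 2 * b| * h ≤ (|4 * a * x| + |2 * b|) * h :=
            mul_le_mul_of_nonneg_right (abs_add_le _ _) hhr.le
        _ = 4 * |a| * x * h + 2 * (|b| * h) := by
            rw [abs_mul, abs_mul, abs_mul, abs_of_nonneg (by norm_num : (0 : ℝ) ≤ 4),
              abs_of_nonneg (by norm_num : (0 : ℝ) ≤ 2), abs_of_nonneg hx0']
            ring
        _ ≤ 4 * |a| * h * h + 2 * (4 * B) := by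
            refine add_le_add ?_ (by linarith)
            refine mul_le_mul_of_nonneg_right ?_ hhr.le
            exact mul_le_mul_of_nonneg_left hx1' (by positivity)
        _ = 4 * (|a| * h ^ 2) + 8 * B := by ring
        _ ≤ 4 * (2 * B) + 8 * B := by linarith
        _ = 16 * B := by ring
    obtain ⟨n, hn⟩ := run A k |d| (σ * g) 0 h (16 * B / h) (1 / (16 * a)) (c - b ^ 2 / (4 * a)) G
      (fun x => s x.toNat) (Int.one_le_abs hd0) hG
      (by
        rw [le_div_iff₀ hhr]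
        have : (h : ℝ) * h ≤ |(d : ℝ)| * (h * h) := le_mul_of_one_le_left (by positivity) hdabs
        rw [hda] at this
        nlinarith)
      (by omega)
      hMb
      (fun x hx0 hx1 => hA _ (by omega))
      (by
        intro x hx y hy hxy
        rw [Set.mem_Ico] at hx hy
        have := hinj (Set.mem_Iio.mpr (by omega)) (Set.mem_Iio.mpr (by omega)) hxy
        omega)
      (by
        intro x hx0 hx1
        have h8 := herr x.toNat (by omega)
        rw [hP] at h8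
        have h9 : ((x.toNat : ℕ) : ℝ) = x := by
          have : ((x.toNat : ℕ) : ℤ) = x := Int.toNat_of_nonneg hx0
          exact_mod_cast congrArg (fun z : ℤ => (z : ℝ)) this
        rw [h9] at h8
        rw [hlin]
        have h10 : 1 / (16 * a) * (σ * (4 * a * x + 2 * b)) ^ 2 + (c - b ^ 2 / (4 * a)) =
            a * x ^ 2 + b * x + c := by
          rw [mul_pow, hσr]
          field_simp
          ring
        rw [h10]
        exact h8)
      (by
        have h11 : (75 * 2 ^ k * (16 * B / h)) ^ k * (h : ℝ) ^ k = (1200 * 2 ^ k * B) ^ k := by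
          rw [← mul_pow]
          congr 1
          field_simp
          ring
        have h12 : (0 : ℝ) < (h : ℝ) ^ k := by positivity
        have h13 : 4 * (75 * 2 ^ k * (16 * B / h)) ^ k * (h : ℝ) ^ k ≤ (h : ℝ) ^ (k + 1) * (h : ℝ) ^ k := by
          rw [mul_assoc, h11, ← pow_add]
          refine hcond.trans (le_of_eq ?_)
          congr 1
          ring
        exact le_of_mul_le_mul_right h13 h12)
    exact ⟨n, hn⟩

end Pool.Agent.Run7.h129.Arc
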