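import Mathlib
import Pool.Agent.Run7.h129.Piece

/-!
# Integral splines with few pieces
-/

open Finset Polynomial Filter Topology
open Pool.Agent.N715.QC (growth Spline find_piece)

namespace Pool.Agent.Run7.h129.Arc

lemma rep_mono {A B : Set ℕ} (h : A ⊆ B) (s : ℕ) : rep A s ≤ rep B s := by
  refine Set.ncard_le_ncard ?_ (rep_finite B s)
  rintro p ⟨h1, h2, h3⟩
  exact ⟨h h1, h h2, h3⟩

lemma longest {c : ℕ → ℕ} (hc : Monotone c) (hc0 : c 0 = 0) {q n : ℕ} (hq : c q = n) (hn : 1 ≤ n) :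
    ∃ i < q, n ≤ q * (c (i + 1) - c i) := by
  by_contra hcon
  push Not at hcon
  have hq0 : 0 < q := by
    rcases Nat.eq_zero_or_pos q with h | h
    · rw [h, hc0] at hq; omega
    · exact h
  have h1 : ∑ i ∈ range q, (c (i + 1) - c i) = c q - c 0 := Finset.sum_range_tsub hc q
  rw [hq, hc0, Nat.sub_zero] at h1
  have h2 : ∑ i ∈ range q, q * (c (i + 1) - c i) < ∑ i ∈ range q, n :=
    Finset.sum_lt_sum_of_nonempty ⟨0, Finset.mem_range.mpr hq0⟩
      (fun i hi => hcon i (Finset.mem_range.mp hi))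
  rw [← Finset.mul_sum, h1, Finset.sum_const, Finset.card_range, smul_eq_mul] at h2
  exact lt_irrefl _ h2

/-- **Integral splines.** -/
theorem spline_rep (a : ℕ → ℕ) (ha : StrictMono a) (k D n : ℕ) (J G : ℝ) (hk : 1 ≤ k)
    (hJ : 1 ≤ J) (hG : 0 ≤ G) (hgrow : (a n : ℝ) ≤ n ^ 2 * J) (hsp : Spline a D n J G)
    (hcond : 8 * (D + 2) * J * (9600 * (D + 2) ^ 2 * 2 ^ k * J ^ 3) ^ k ≤ (n : ℝ)) :
    ∃ s : ℕ, s ≤ 2 * a n ∧ (2 : ℝ) ^ k ≤ (4 * G + 1) * rep (Set.range a) s := by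
  have hD : (0 : ℝ) ≤ D := Nat.cast_nonneg D
  set Q : ℝ := (9600 * (D + 2) ^ 2 * 2 ^ k * J ^ 3) ^ k with hQ
  have h2k : (1 : ℝ) ≤ 2 ^ k := one_le_pow₀ (by norm_num)
  have hJ3 : (1 : ℝ) ≤ J ^ 3 := one_le_pow₀ hJ
  have hD2 : (1 : ℝ) ≤ (D + 2) ^ 2 := by nlinarith
  have hDJ : (1 : ℝ) ≤ (D + 2) ^ 2 * J ^ 3 := by nlinarith
  have hbase : 2 ^ k + 9600 * ((D + 2) ^ 2 * J ^ 3) ≤ 9600 * (D + 2) ^ 2 * 2 ^ k * J ^ 3 := by
    have h1 : 9600 * (D + 2) ^ 2 * 2 ^ k * J ^ 3 = 9600 * (2 ^ k * ((D + 2) ^ 2 * J ^ 3)) := by ring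
    have h3 : (2 : ℝ) ≤ 2 ^ k := by
      calc (2 : ℝ) = 2 ^ 1 := by norm_num
        _ ≤ 2 ^ k := pow_le_pow_right₀ (by norm_num) hk
    rw [h1]
    nlinarith
  have hbaseX : 9600 * (D + 2) ^ 2 * 2 ^ k * J ^ 3 ≤ Q := by
    rw [hQ]
    refine le_self_pow₀ ?_ (by omega)
    linarith
  have hQbig : 2 ^ k + 9600 * ((D + 2) ^ 2 * J ^ 3) ≤ Q := hbase.trans hbaseX
  have hQ0 : 0 < Q := by linarith
  have hDJ8 : 1 ≤ 8 * (D + 2) * J := by nlinarith
  have hQn : Q ≤ n := by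
    refine le_trans ?_ hcond
    exact le_mul_of_one_le_left hQ0.le hDJ8
  have hn1 : (1 : ℝ) ≤ n := by linarith
  have hn1' : 1 ≤ n := by exact_mod_cast hn1
  by_cases hGbig : (n : ℝ) ≤ G
  · -- trivial case
    refine ⟨2 * a 0, by have := ha.monotone (Nat.zero_le n); omega, ?_⟩
    have h1 : 1 ≤ rep (Set.range a) (2 * a 0) := by
      unfold rep
      rw [Nat.one_le_iff_ne_zero, Ne, Set.ncard_eq_zero (rep_finite _ _), ← Ne,
        ← Set.nonempty_iff_ne_empty]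
      exact ⟨(a 0, a 0), ⟨0, rfl⟩, ⟨0, rfl⟩, by simp only; ring⟩
    have h2 : (1 : ℝ) ≤ rep (Set.range a) (2 * a 0) := by exact_mod_cast h1
    nlinarith
  push Not at hGbig
  obtain ⟨q, c, P, hq, hmono, hc0, hcq, hP⟩ := hsp
  obtain ⟨i, hi, hin⟩ := longest hmono hc0 hcq hn1'
  set ℓ : ℕ := c (i + 1) - c i with hℓ
  have hnℓ : (n : ℝ) ≤ J * ℓ := by
    calc (n : ℝ) ≤ q * ℓ := by exact_mod_cast hin
      _ ≤ J * ℓ := mul_le_mul_of_nonneg_right hq (Nat.cast_nonneg _)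
  have hcle : c (i + 1) ≤ n := by rw [← hcq]; exact hmono hi
  have hci : c i ≤ c (i + 1) := hmono (Nat.le_succ i)
  set h : ℕ := (ℓ - 1) / (D + 2) with hh
  have h1 : (D + 2) * h ≤ ℓ - 1 := Nat.mul_div_le _ _
  have h2 : ℓ ≤ (D + 2) * (h + 1) := by
    have : ℓ - 1 < (D + 2) * (h + 1) := by
      rw [hh]
      exact Nat.lt_mul_div_succ (ℓ - 1) (by omega)
    omega
  have h2' : (ℓ : ℝ) ≤ (D + 2) * (h + 1) := by exact_mod_cast h2
  have h3 : 8 * (D + 2) * J * Q ≤ J * ((D + 2) * (h + 1)) := by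
    refine hcond.trans (hnℓ.trans ?_)
    exact mul_le_mul_of_nonneg_left h2' (by linarith)
  have h4 : 8 * Q ≤ h + 1 := by
    have h5 : 0 < J * (D + 2) := by positivity
    have h6 : (J * (D + 2)) * (8 * Q) ≤ (J * (D + 2)) * (h + 1) := by linarith
    exact le_of_mul_le_mul_left h6 h5
  have hh1 : (2 : ℝ) ≤ h := by linarith
  have hh2 : 2 ≤ h := by exact_mod_cast hh1
  have h5 : 4 * Q ≤ h := by linarith
  have hℓ0 : 1 ≤ ℓ := by
    by_contra hcon
    have h7 : ℓ = 0 := by omega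
    rw [h7] at hnℓ
    simp at hnℓ
    linarith
  have h6 : (n : ℝ) ≤ 2 * (D + 2) * J * h := by
    calc (n : ℝ) ≤ J * ℓ := hnℓ
      _ ≤ J * ((D + 2) * (h + 1)) := mul_le_mul_of_nonneg_left h2' (by linarith)
      _ ≤ J * ((D + 2) * (2 * h)) := by
          refine mul_le_mul_of_nonneg_left ?_ (by linarith)
          exact mul_le_mul_of_nonneg_left (by linarith) (by linarith)
      _ = 2 * (D + 2) * J * h := by ring
  have h7 : (n : ℝ) ^ 2 ≤ 4 * (D + 2) ^ 2 * J ^ 2 * h ^ 2 := by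
    calc (n : ℝ) ^ 2 ≤ (2 * (D + 2) * J * h) ^ 2 := pow_le_pow_left₀ (by linarith) h6 2
      _ = 4 * (D + 2) ^ 2 * J ^ 2 * h ^ 2 := by ring
  set B : ℝ := 2 * n ^ 2 * J with hB
  set A : Set ℕ := {x | ∃ t < n, a t = x} with hA
  obtain ⟨s, hs⟩ := piece A k ((P i).comp (X + C ((c i : ℕ) : ℝ))) ℓ h (fun t => a (c i + t)) B G hG
    (by
      intro x _ y _ hxy
      have := ha.injective hxy
      omega)
    (fun t ht => ⟨c i + t, by omega, rfl⟩)
    (fun t ht => by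
      have h8 := ((hP i hi).2 (c i + t) (by omega) (by omega)).1
      rw [eval_comp]
      simp only [eval_add, eval_X, eval_C]
      rw [show ((t : ℝ) + (c i : ℝ)) = ((c i + t : ℕ) : ℝ) by push_cast; ring]
      exact h8)
    (fun t ht => by
      have h8 := ((hP i hi).2 (c i + t) (by omega) (by omega)).2
      rw [eval_comp]
      simp only [eval_add, eval_X, eval_C]
      rw [show ((t : ℝ) + (c i : ℝ)) = ((c i + t : ℕ) : ℝ) by push_cast; ring]
      have h9 : (a (c i + t) : ℝ) ≤ a n := by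
        exact_mod_cast ha.monotone (by omega : c i + t ≤ n)
      have h10 : (0 : ℝ) ≤ a (c i + t) := Nat.cast_nonneg _
      have h11 : (n : ℝ) ≤ n ^ 2 * J := by
        have : (n : ℝ) ≤ n ^ 2 := by nlinarith
        nlinarith
      have h12 := abs_le.mp h8
      rw [hB, abs_le]
      constructor <;> linarith [h12.1, h12.2])
    (fun t ht => by
      have h8 := ((hP i hi).2 (c i + t) (by omega) (by omega)).2
      rw [eval_comp]
      simp only [eval_add, eval_X, eval_C]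
      rw [show ((t : ℝ) + (c i : ℝ)) = ((c i + t : ℕ) : ℝ) by push_cast; ring]
      exact h8)
    (by
      rw [natDegree_comp, natDegree_X_add_C, mul_one]
      have h8 : (P i).natDegree * h ≤ (D + 2) * h := Nat.mul_le_mul_right _ (by
        have := (hP i hi).1
        omega)
      omega)
    (by
      have h8 : 2 * h ≤ (D + 2) * h := Nat.mul_le_mul_right _ (by omega)
      omega)
    hh2
    (by
      have h8 : (2 : ℝ) ^ k ≤ h := by nlinarith
      have h9 : 2 ^ k ≤ h := by exact_mod_cast h8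
      have h10 : h ≤ (D + 2) * h := Nat.le_mul_of_pos_left _ (by omega)
      omega)
    (by
      have h8 : 64 * ((D + 2) ^ 2 * J ^ 3) < h := by nlinarith
      have h9 : (0 : ℝ) < (h : ℝ) ^ 2 := by positivity
      calc 8 * B = 16 * J * (n : ℝ) ^ 2 := by rw [hB]; ring
        _ ≤ 16 * J * (4 * (D + 2) ^ 2 * J ^ 2 * h ^ 2) :=
            mul_le_mul_of_nonneg_left h7 (by linarith)
        _ = 64 * ((D + 2) ^ 2 * J ^ 3) * h ^ 2 := by ring
        _ < h * h ^ 2 := mul_lt_mul_of_pos_right h8 h9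
        _ = (h : ℝ) ^ 3 := by ring)
    (by
      have h8 : 1200 * 2 ^ k * B ≤ (9600 * (D + 2) ^ 2 * 2 ^ k * J ^ 3) * h ^ 2 := by
        calc 1200 * 2 ^ k * B = 2400 * 2 ^ k * J * (n : ℝ) ^ 2 := by rw [hB]; ring
          _ ≤ 2400 * 2 ^ k * J * (4 * (D + 2) ^ 2 * J ^ 2 * h ^ 2) :=
              mul_le_mul_of_nonneg_left h7 (by positivity)
          _ = (9600 * (D + 2) ^ 2 * 2 ^ k * J ^ 3) * h ^ 2 := by ring
      calc 4 * (1200 * 2 ^ k * B) ^ k
          ≤ 4 * ((9600 * (D + 2) ^ 2 * 2 ^ k * J ^ 3) * h ^ 2) ^ k := by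
            refine mul_le_mul_of_nonneg_left ?_ (by norm_num)
            exact pow_le_pow_left₀ (by positivity) h8 k
        _ = (4 * Q) * (h : ℝ) ^ (2 * k) := by rw [mul_pow, ← hQ, ← pow_mul]; ring
        _ ≤ h * (h : ℝ) ^ (2 * k) := mul_le_mul_of_nonneg_right h5 (by positivity)
        _ = (h : ℝ) ^ (2 * k + 1) := by rw [pow_succ]; ring)
  have hAr : A ⊆ Set.range a := by
    rintro x ⟨t, _, rfl⟩
    exact ⟨t, rfl⟩
  refine ⟨s, ?_, ?_⟩
  · have h8 : rep A s ≠ 0 := by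
      intro h0
      rw [h0] at hs
      simp at hs
      linarith
    unfold rep at h8
    obtain ⟨p, ⟨t, ht, hpt⟩, ⟨u, hu, hpu⟩, hp⟩ := Set.nonempty_of_ncard_ne_zero h8
    have h9 := ha.monotone ht.le
    have h10 := ha.monotone hu.le
    omega
  · refine hs.trans (mul_le_mul_of_nonneg_left ?_ (by linarith))
    exact_mod_cast rep_mono hAr s

end Pool.Agent.Run7.h129.Arc
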