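import Mathlib
import Pool.Agent.Run7.h129.Spl

/-!
# Consequences for sequences
-/

open Finset Polynomial Filter Topology
open Pool.Agent.N715.QC (Spline diff spline_of_diff)

namespace Pool.Agent.Run7.h129.Arc

lemma spline_mono {a : ℕ → ℕ} {D n : ℕ} {p p' G G' : ℝ} (hp : p ≤ p') (hG : G ≤ G')
    (h : Spline a D n p G) : Spline a D n p' G' := by
  obtain ⟨q, c, P, hq, hmono, hc0, hcq, hP⟩ := h
  refine ⟨q, c, P, hq.trans hp, hmono, hc0, hcq, fun i hi => ⟨(hP i hi).1, fun k h1 h2 => ?_⟩⟩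
  exact ⟨((hP i hi).2 k h1 h2).1, ((hP i hi).2 k h1 h2).2.trans hG⟩

/-- The growth of an asymptotic basis. -/
lemma basis_growth' (a : ℕ → ℕ) (ha : StrictMono a)
    (h : ∀ᶠ s : ℕ in atTop, 1 ≤ rep (Set.range a) s) :
    ∀ᶠ n : ℕ in atTop, (a n : ℝ) ≤ 2 * n ^ 2 := by
  obtain ⟨s0, hs0⟩ := eventually_atTop.mp h
  filter_upwards [eventually_ge_atTop (s0 + 1)] with n hn
  have h1 : a n ≤ n ^ 2 + s0 := by
    by_contra hcon
    push Not at hcon
    have h2 : Finset.Ico s0 (a n) ⊆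
        ((range n) ×ˢ (range n)).image (fun z : ℕ × ℕ => a z.1 + a z.2) := by
      intro s hs
      rw [Finset.mem_Ico] at hs
      have h3 := hs0 s hs.1
      unfold rep at h3
      obtain ⟨z, hz1, hz2, hz3⟩ := Set.nonempty_of_ncard_ne_zero
        (s := {p : ℕ × ℕ | p.1 ∈ Set.range a ∧ p.2 ∈ Set.range a ∧ p.1 + p.2 = s}) (by omega)
      obtain ⟨i, hi⟩ := hz1
      obtain ⟨j, hj⟩ := hz2
      rw [Finset.mem_image]
      refine ⟨(i, j), ?_, by simp only; rw [hi, hj]; exact hz3⟩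
      rw [Finset.mem_product, Finset.mem_range, Finset.mem_range]
      constructor
      · exact ha.lt_iff_lt.mp (by simp only; omega)
      · exact ha.lt_iff_lt.mp (by simp only; omega)
    have h3 := (Finset.card_le_card h2).trans Finset.card_image_le
    rw [Nat.card_Ico, Finset.card_product, Finset.card_range, ← sq] at h3
    omega
  have h2 : (s0 : ℝ) + 1 ≤ n := by exact_mod_cast hn
  have h3 : (a n : ℝ) ≤ n ^ 2 + s0 := by exact_mod_cast h1
  nlinarith

/-- **Splines with `n ^ o(1)` pieces.** -/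
theorem unbounded (a : ℕ → ℕ) (ha : StrictMono a) (C : ℝ)
    (hC : ∀ᶠ n : ℕ in atTop, (a n : ℝ) ≤ C * n ^ 2) (D : ℕ) (G : ℝ)
    (h : ∀ ε : ℝ, 0 < ε → ∃ᶠ n : ℕ in atTop, Spline a D n ((n : ℝ) ^ ε) G) (K : ℕ) :
    ∃ s : ℕ, K < rep (Set.range a) s := by
  set G' : ℝ := max G 0 with hG'
  have hG0 : 0 ≤ G' := le_max_right _ _
  obtain ⟨k0, hk0⟩ := pow_unbounded_of_one_lt ((4 * G' + 1) * K) (one_lt_two : (1 : ℝ) < 2)
  set k : ℕ := k0 + 1 with hk
  have hk2 : (4 * G' + 1) * K < (2 : ℝ) ^ k := by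
    refine hk0.trans_le (pow_le_pow_right₀ (by norm_num) (by omega))
  set c : ℝ := 8 * (D + 2) * (9600 * (D + 2) ^ 2 * 2 ^ k) ^ k with hc
  set ε : ℝ := 1 / (3 * k + 2) with hε
  have hε0 : 0 < ε := by positivity
  have htend : Tendsto (fun n : ℕ => (n : ℝ) ^ ε) atTop atTop :=
    (tendsto_rpow_atTop hε0).comp tendsto_natCast_atTop_atTop
  obtain ⟨n, hn1, hn2, hn3, hn4⟩ := ((h ε hε0).and_eventually (hC.and
    ((htend.eventually (eventually_ge_atTop (max 1 (max C c)))).and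
      (eventually_ge_atTop 1)))).exists
  set J : ℝ := (n : ℝ) ^ ε with hJ
  have hJ1 : 1 ≤ J := le_trans (le_max_left _ _) hn3
  have hJC : C ≤ J := le_trans ((le_max_left _ _).trans (le_max_right _ _)) hn3
  have hJc : c ≤ J := le_trans ((le_max_right _ _).trans (le_max_right _ _)) hn3
  have hJn : J ^ (3 * k + 2) = n := by
    rw [hJ, ← Real.rpow_natCast, ← Real.rpow_mul (Nat.cast_nonneg n), hε]
    push_cast
    rw [one_div, inv_mul_cancel₀ (by positivity), Real.rpow_one]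
  obtain ⟨s, -, hs⟩ := spline_rep a ha k D n J G' (by omega) hJ1 hG0
    (hn2.trans (by
      rw [mul_comm]
      exact mul_le_mul_of_nonneg_left hJC (by positivity)))
    (spline_mono le_rfl (le_max_left _ _) hn1)
    (by
      rw [← hJn]
      calc 8 * (D + 2) * J * (9600 * (D + 2) ^ 2 * 2 ^ k * J ^ 3) ^ k
          = c * J ^ (3 * k + 1) := by
            rw [hc, mul_pow _ (J ^ 3), ← pow_mul]
            ring
        _ ≤ J * J ^ (3 * k + 1) := mul_le_mul_of_nonneg_right hJc (by positivity)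
        _ = J ^ (3 * k + 2) := by ring)
  refine ⟨s, ?_⟩
  have h1 : (4 * G' + 1) * (K : ℝ) < (4 * G' + 1) * rep (Set.range a) s := hk2.trans_le hs
  have h2 : (K : ℝ) < rep (Set.range a) s := lt_of_mul_lt_mul_left h1 (by linarith)
  exact_mod_cast h2

open Classical in
/-- **Sequences whose `d`-th difference vanishes with `n ^ o(1)` exceptions.** -/
theorem unbounded_diff (a : ℕ → ℕ) (ha : StrictMono a) (C : ℝ)
    (hC : ∀ᶠ n : ℕ in atTop, (a n : ℝ) ≤ C * n ^ 2) (d : ℕ) (hd : 1 ≤ d)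
    (h : ∀ ε : ℝ, 0 < ε → ∃ᶠ n : ℕ in atTop,
      (((range n).filter (fun k => diff d a k ≠ 0)).card : ℝ) ≤ (n : ℝ) ^ ε) (K : ℕ) :
    ∃ s : ℕ, K < rep (Set.range a) s := by
  refine unbounded a ha C hC d 0 (fun ε hε => ?_) K
  have htend : Tendsto (fun n : ℕ => (n : ℝ) ^ (ε / 2)) atTop atTop :=
    (tendsto_rpow_atTop (by positivity)).comp tendsto_natCast_atTop_atTop
  refine ((h (ε / 2) (by positivity)).and_eventually
    ((htend.eventually (eventually_ge_atTop 2)).and (eventually_ge_atTop 1))).mono ?_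
  rintro n ⟨h1, h2, h3⟩
  refine spline_of_diff a hd n _ 0 le_rfl ?_
  have h4 : (n : ℝ) ^ ε = (n : ℝ) ^ (ε / 2) * (n : ℝ) ^ (ε / 2) := by
    rw [← Real.rpow_add (by positivity)]
    congr 1
    ring
  rw [h4]
  nlinarith

/-- `F x = exp (√(log x) / 10)`. -/
noncomputable def F (x : ℝ) : ℝ := Real.exp (1 / 10 * √(Real.log x))

lemma L_tendsto : Tendsto (fun n : ℕ => √(Real.log n)) atTop atTop :=
  Real.tendsto_sqrt_atTop.comp (Real.tendsto_log_atTop.comp tendsto_natCast_atTop_atTop)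

lemma rep_le_succ (A : Set ℕ) (s : ℕ) : rep A s ≤ s + 1 := by
  unfold rep
  have h1 : {p : ℕ × ℕ | p.1 ∈ A ∧ p.2 ∈ A ∧ p.1 + p.2 = s} ⊆
      ((range (s + 1)).image (fun x => (x, s - x)) : Finset (ℕ × ℕ)) := by
    rintro ⟨x, y⟩ ⟨_, _, h⟩
    simp only at h
    rw [Finset.mem_coe, Finset.mem_image]
    exact ⟨x, Finset.mem_range.mpr (by omega), Prod.ext rfl (by simp only; omega)⟩
  refine (Set.ncard_le_ncard h1 (Finset.finite_toSet _)).trans ?_
  rw [Set.ncard_coe_finset]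
  exact Finset.card_image_le.trans (by rw [Finset.card_range])

/-- **Splines with `F n` pieces and errors `F n`.** -/
theorem spline_F (a : ℕ → ℕ) (ha : StrictMono a) (D : ℕ)
    (h : ∃ᶠ n : ℕ in atTop, (a n : ℝ) ≤ n ^ 2 * F n ∧ Spline a D n (F n) (F n)) :
    ∃ᶠ s : ℕ in atTop, F s ≤ rep (Set.range a) s := by
  rw [frequently_atTop]
  intro M
  set c0 : ℝ := Real.log (8 * (D + 2)) with hc0
  set c1 : ℝ := Real.log (9600 * (D + 2) ^ 2) with hc1
  have hD : (0 : ℝ) ≤ D := Nat.cast_nonneg D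
  have hc0' : 0 ≤ c0 := Real.log_nonneg (by linarith)
  have hc1' : 0 ≤ c1 := Real.log_nonneg (by nlinarith)
  have hE0 : (8 * (D + 2) : ℝ) = Real.exp c0 := by
    rw [hc0, Real.exp_log (by positivity)]
  have hE1 : (9600 * (D + 2) ^ 2 : ℝ) = Real.exp c1 := by
    rw [hc1, Real.exp_log (by positivity)]
  obtain ⟨n, ⟨hgrow, hsp⟩, hL, hn1⟩ := (h.and_eventually
    ((L_tendsto.eventually (eventually_ge_atTop (2 * c0 + 2 * c1 + 100 + 20 * (M + 2)))).and
      (eventually_ge_atTop 1))).exists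
  set L : ℝ := √(Real.log n) with hLdef
  have hM0 : (0 : ℝ) ≤ M := Nat.cast_nonneg M
  have hL100 : 100 ≤ L := by linarith
  have hn0 : (0 : ℝ) < n := by exact_mod_cast hn1
  have hlog0 : 0 ≤ Real.log n := Real.log_natCast_nonneg n
  have hLL : L ^ 2 = Real.log n := by rw [hLdef, Real.sq_sqrt hlog0]
  have hnL : (n : ℝ) = Real.exp (L ^ 2) := by rw [hLL, Real.exp_log hn0]
  have hF : F n = Real.exp (L / 10) := by
    unfold F
    rw [← hLdef]
    congr 1
    ring
  set k : ℕ := ⌊L / 2⌋₊ with hk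
  have hk1 : (k : ℝ) ≤ L / 2 := Nat.floor_le (by linarith)
  have hk2 : L / 2 - 1 < k := by
    have := Nat.lt_floor_add_one (L / 2)
    rw [← hk] at this
    linarith
  have hk0 : 1 ≤ k := by
    have : (1 : ℝ) ≤ k := by linarith
    exact_mod_cast this
  have h2k : (2 : ℝ) ^ k = Real.exp (k * Real.log 2) := by
    rw [← Real.log_pow, Real.exp_log (by positivity)]
  have hl2 := Real.log_two_lt_d9
  have hl2' := Real.log_two_gt_d9
  have hkr : (1 : ℝ) ≤ k := by exact_mod_cast hk0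
  obtain ⟨s, hs1, hs2⟩ := spline_rep a ha k D n (F n) (F n) hk0
    (by rw [hF]; exact Real.one_le_exp (by positivity)) (by rw [hF]; positivity) hgrow hsp
    (by
      rw [hE0, hE1, h2k, hF, hnL, ← Real.exp_nat_mul, ← Real.exp_add, ← Real.exp_add,
        ← Real.exp_add, ← Real.exp_nat_mul, ← Real.exp_add]
      refine Real.exp_le_exp.mpr ?_
      have h1 : c1 + k * Real.log 2 + ((3 : ℕ) : ℝ) * (L / 10) ≤ c1 + L / 2 + 3 * (L / 10) := by
        push_cast
        nlinarith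
      have h2 : 0 ≤ c1 + L / 2 + 3 * (L / 10) := by positivity
      have h3 : (k : ℝ) * (c1 + k * Real.log 2 + ((3 : ℕ) : ℝ) * (L / 10)) ≤
          (L / 2) * (c1 + L / 2 + 3 * (L / 10)) := by
        calc (k : ℝ) * (c1 + k * Real.log 2 + ((3 : ℕ) : ℝ) * (L / 10))
            ≤ k * (c1 + L / 2 + 3 * (L / 10)) := mul_le_mul_of_nonneg_left h1 (by linarith)
          _ ≤ (L / 2) * (c1 + L / 2 + 3 * (L / 10)) := mul_le_mul_of_nonneg_right hk1 h2
      nlinarith)
  -- the size of the representation number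
  have hR : Real.exp (3 / 20 * L) ≤ rep (Set.range a) s := by
    have h1 : 4 * F n + 1 ≤ Real.exp (L / 10 + 2) := by
      rw [hF, Real.exp_add]
      have h2 : (5 : ℝ) ≤ Real.exp 2 := by
        have := Real.exp_one_gt_d9
        have h3 : Real.exp 2 = Real.exp 1 * Real.exp 1 := by rw [← Real.exp_add]; norm_num
        rw [h3]
        nlinarith
      have h4 : (1 : ℝ) ≤ Real.exp (L / 10) := Real.one_le_exp (by positivity)
      nlinarith
    have h5 : Real.exp (34 / 100 * L - 1) ≤ (2 : ℝ) ^ k := by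
      rw [h2k]
      refine Real.exp_le_exp.mpr ?_
      nlinarith
    have h6 : Real.exp (34 / 100 * L - 1) ≤ Real.exp (L / 10 + 2) * rep (Set.range a) s := by
      refine h5.trans (hs2.trans ?_)
      exact mul_le_mul_of_nonneg_right h1 (Nat.cast_nonneg _)
    have h7 : Real.exp (L / 10 + 2) * Real.exp (3 / 20 * L) ≤
        Real.exp (L / 10 + 2) * rep (Set.range a) s := by
      refine le_trans ?_ h6
      rw [← Real.exp_add]
      refine Real.exp_le_exp.mpr ?_
      linarith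
    exact le_of_mul_le_mul_left h7 (Real.exp_pos _)
  have hs0 : M < s := by
    have h1 := rep_le_succ (Set.range a) s
    have h2 : (rep (Set.range a) s : ℝ) ≤ s + 1 := by exact_mod_cast h1
    have h3 : 3 / 20 * L + 1 ≤ Real.exp (3 / 20 * L) := Real.add_one_le_exp _
    have h4 : (M : ℝ) < s := by linarith
    exact_mod_cast h4
  refine ⟨s, hs0.le, le_trans ?_ hR⟩
  unfold F
  refine Real.exp_le_exp.mpr ?_
  have hs00 : (0 : ℝ) < s := by
    have : 0 < s := by omega
    exact_mod_cast this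
  have h1 : (s : ℝ) ≤ Real.exp (1 + 2 * L ^ 2 + L / 10) := by
    have h2 : (s : ℝ) ≤ 2 * a n := by exact_mod_cast hs1
    have h3 : (2 : ℝ) ≤ Real.exp 1 := by
      have := Real.exp_one_gt_d9
      linarith
    have h4 : (a n : ℝ) ≤ Real.exp (2 * L ^ 2 + L / 10) := by
      rw [Real.exp_add, ← hF]
      have h5 : Real.exp (2 * L ^ 2) = (n : ℝ) ^ 2 := by
        rw [hnL, ← Real.exp_nat_mul]
        push_cast
        rfl
      rw [h5]
      exact hgrow
    calc (s : ℝ) ≤ 2 * a n := h2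
      _ ≤ Real.exp 1 * Real.exp (2 * L ^ 2 + L / 10) :=
          mul_le_mul h3 h4 (Nat.cast_nonneg _) (Real.exp_pos _).le
      _ = Real.exp (1 + 2 * L ^ 2 + L / 10) := by rw [← Real.exp_add]; congr 1; ring
  have h2 : Real.log s ≤ 1 + 2 * L ^ 2 + L / 10 := by
    rw [Real.log_le_iff_le_exp hs00]
    exact h1
  have h3 : √(Real.log s) ≤ 3 / 2 * L := by
    refine Real.sqrt_le_iff.mpr ⟨by positivity, h2.trans ?_⟩
    nlinarith
  linarith

end Pool.Agent.Run7.h129.Arc
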