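import Mathlib
import Pool.Agent.Run7.h129.Cor

/-!
# Sets which contain one long run
-/

open Finset Polynomial Filter Topology

namespace Pool.Agent.Run7.h129.Arc

/-- **One run of values of an integral polynomial.** -/
theorem one_run (A : Set ℕ) (k D : ℕ) (P : ℝ[X]) (ℓ : ℕ) (s : ℕ → ℕ) (x G : ℝ) (hk : 1 ≤ k)
    (hD : P.natDegree ≤ D) (hG : 0 ≤ G) (hGx : G ≤ x) (hx1 : 1 ≤ x)
    (hinj : Set.InjOn s (Set.Iio ℓ))
    (hs : ∀ t < ℓ, s t ∈ A ∧ (s t : ℝ) ≤ x ∧ (∃ z : ℤ, P.eval (t : ℝ) = z) ∧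
      |(s t : ℝ) - P.eval (t : ℝ)| ≤ G)
    (hcond : 4 * (2400 * 2 ^ k * x) ^ k * (2 * (D + 2)) ^ (2 * k + 1) ≤ (ℓ : ℝ) ^ (2 * k + 1)) :
    ∃ n : ℕ, (2 : ℝ) ^ k ≤ (4 * G + 1) * rep A n := by
  have hD0 : (0 : ℝ) ≤ D := Nat.cast_nonneg D
  set E : ℝ := 2 * (D + 2) with hE
  have hE0 : 0 < E := by positivity
  have h2k : (1 : ℝ) ≤ 2 ^ k := one_le_pow₀ (by norm_num)
  have hEp : 0 < E ^ (2 * k + 1) := by positivity
  have h2kx : 1 ≤ 2 ^ k * x := by nlinarith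
  -- `ℓ` is large
  have hℓ : 2 * E ≤ ℓ := by
    have h1 : (2 * E) ^ (2 * k + 1) ≤ (ℓ : ℝ) ^ (2 * k + 1) := by
      refine le_trans ?_ hcond
      rw [mul_pow]
      refine mul_le_mul_of_nonneg_right ?_ hEp.le
      have h2 : (4 : ℝ) ^ k ≤ (2400 * 2 ^ k * x) ^ k := pow_le_pow_left₀ (by norm_num) (by nlinarith) k
      have h3 : (2 : ℝ) ^ (2 * k + 1) = 2 * 4 ^ k := by rw [pow_succ, pow_mul]; norm_num; ring
      rw [h3]
      have h4 : (0 : ℝ) < 4 ^ k := by positivity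
      linarith
    exact (pow_le_pow_iff_left₀ (by positivity) (Nat.cast_nonneg _) (by omega)).mp h1
  have hℓ4 : 4 * (D + 2) ≤ ℓ := by
    have : (4 * (D + 2) : ℝ) ≤ ℓ := by rw [hE] at hℓ; linarith
    exact_mod_cast this
  set h : ℕ := (ℓ - 1) / (D + 2) with hh
  have h1 : (D + 2) * h ≤ ℓ - 1 := Nat.mul_div_le _ _
  have h2 : ℓ ≤ (D + 2) * (h + 1) := by
    have : ℓ - 1 < (D + 2) * (h + 1) := by
      rw [hh]
      exact Nat.lt_mul_div_succ (ℓ - 1) (by omega)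
    omega
  have h3 : 3 ≤ h := by
    rw [hh, Nat.le_div_iff_mul_le (by omega)]
    omega
  have h3r : (3 : ℝ) ≤ h := by exact_mod_cast h3
  have h2' : (ℓ : ℝ) ≤ h * E := by
    have h4 : (ℓ : ℝ) ≤ (D + 2) * (h + 1) := by exact_mod_cast h2
    refine h4.trans ?_
    rw [hE]
    nlinarith
  have hmain : 4 * (2400 * 2 ^ k * x) ^ k ≤ (h : ℝ) ^ (2 * k + 1) := by
    have h5 : (ℓ : ℝ) ^ (2 * k + 1) ≤ (h : ℝ) ^ (2 * k + 1) * E ^ (2 * k + 1) := by
      rw [← mul_pow]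
      exact pow_le_pow_left₀ (Nat.cast_nonneg _) h2' _
    exact le_of_mul_le_mul_right (hcond.trans h5) hEp
  -- `h ≤ x`
  have hhx : (h : ℝ) ≤ x := by
    have h5 : ℓ ≤ ⌊x⌋₊ + 1 := by
      have h6 : (range ℓ).image s ⊆ range (⌊x⌋₊ + 1) := by
        intro y hy
        rw [Finset.mem_image] at hy
        obtain ⟨t, ht, rfl⟩ := hy
        rw [Finset.mem_range] at ht ⊢
        have := Nat.le_floor (hs t ht).2.1
        omega
      have h7 := Finset.card_le_card h6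
      rw [Finset.card_range, Finset.card_image_of_injOn, Finset.card_range] at h7
      · exact h7
      · intro u hu v hv huv
        rw [Finset.mem_coe, Finset.mem_range] at hu hv
        exact hinj hu hv huv
    have h8 : h ≤ ⌊x⌋₊ := by
      have : h ≤ (D + 2) * h := Nat.le_mul_of_pos_left _ (by omega)
      omega
    exact (Nat.le_floor_iff (by linarith)).mp h8
  obtain ⟨n, hn⟩ := piece A k P ℓ h s (2 * x) G hG hinj (fun t ht => (hs t ht).1)
    (fun t ht => (hs t ht).2.2.1)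
    (fun t ht => by
      obtain ⟨-, h5, -, h6⟩ := hs t ht
      have h7 := abs_le.mp h6
      have h8 : (0 : ℝ) ≤ s t := Nat.cast_nonneg _
      rw [abs_le]
      constructor <;> linarith [h7.1, h7.2])
    (fun t ht => (hs t ht).2.2.2)
    (by
      have h8 : P.natDegree * h ≤ (D + 2) * h := Nat.mul_le_mul_right _ (by omega)
      omega)
    (by
      have h8 : 2 * h ≤ (D + 2) * h := Nat.mul_le_mul_right _ (by omega)
      omega)
    (by omega)
    (by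
      -- `2 ^ k ≤ h`
      have h5 : ((2 : ℝ) ^ k) ^ (k + 1) * (h : ℝ) ^ k ≤ (h : ℝ) ^ (k + 1) * (h : ℝ) ^ k := by
        calc ((2 : ℝ) ^ k) ^ (k + 1) * (h : ℝ) ^ k = 2 ^ k * (2 ^ k * h) ^ k := by
              rw [mul_pow, pow_succ]; ring
          _ = (2 * (2 ^ k * h)) ^ k := by rw [mul_pow 2 (2 ^ k * (h : ℝ)) k]
          _ ≤ (2400 * 2 ^ k * x) ^ k := by
              refine pow_le_pow_left₀ (by positivity) ?_ k
              nlinarith
          _ ≤ 4 * (2400 * 2 ^ k * x) ^ k := by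
              have : (0 : ℝ) ≤ (2400 * 2 ^ k * x) ^ k := by positivity
              linarith
          _ ≤ (h : ℝ) ^ (2 * k + 1) := hmain
          _ = (h : ℝ) ^ (k + 1) * (h : ℝ) ^ k := by rw [← pow_add]; congr 1; ring
      have h6 : ((2 : ℝ) ^ k) ^ (k + 1) ≤ (h : ℝ) ^ (k + 1) :=
        le_of_mul_le_mul_right h5 (by positivity)
      have h7 : (2 : ℝ) ^ k ≤ h :=
        (pow_le_pow_iff_left₀ (by positivity) (Nat.cast_nonneg _) (by omega)).mp h6
      have h9 : 2 ^ k ≤ h := by exact_mod_cast h7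
      have h10 : h ≤ (D + 2) * h := Nat.le_mul_of_pos_left _ (by omega)
      omega)
    (by
      by_contra hcon
      push Not at hcon
      have h5 : ((h : ℝ) ^ 3) ^ k ≤ (16 * x) ^ k := by
        refine pow_le_pow_left₀ (by positivity) ?_ k
        linarith
      have h6 : (h : ℝ) ^ (2 * k + 1) ≤ ((h : ℝ) ^ 3) ^ k := by
        rw [← pow_mul]
        exact pow_le_pow_right₀ (by linarith) (by omega)
      have h7 : (16 * x) ^ k ≤ (2400 * 2 ^ k * x) ^ k :=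
        pow_le_pow_left₀ (by positivity) (by nlinarith) k
      have h8 : (0 : ℝ) < (2400 * 2 ^ k * x) ^ k := by positivity
      linarith)
    (by
      rw [show (1200 * 2 ^ k * (2 * x) : ℝ) = 2400 * 2 ^ k * x by ring]
      exact hmain)
  exact ⟨n, hn⟩

/-- **Sets which contain runs of length `x ^ (1 / 2 - o(1))`.** -/
theorem runs_unbounded (A : Set ℕ) (D : ℕ) (G : ℝ)
    (h : ∀ ε : ℝ, 0 < ε → ∃ᶠ x : ℕ in atTop, ∃ (P : ℝ[X]) (ℓ : ℕ) (s : ℕ → ℕ),
      P.natDegree ≤ D ∧ (x : ℝ) ^ (1 / 2 - ε) ≤ ℓ ∧ Set.InjOn s (Set.Iio ℓ) ∧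
      ∀ t < ℓ, s t ∈ A ∧ s t ≤ x ∧ (∃ z : ℤ, P.eval (t : ℝ) = z) ∧
        |(s t : ℝ) - P.eval (t : ℝ)| ≤ G) (K : ℕ) :
    ∃ n : ℕ, K < rep A n := by
  set G' : ℝ := max G 0 with hG'
  have hG0 : 0 ≤ G' := le_max_right _ _
  obtain ⟨k0, hk0⟩ := pow_unbounded_of_one_lt ((4 * G' + 1) * K) (one_lt_two : (1 : ℝ) < 2)
  set k : ℕ := k0 + 1 with hk
  have hk2 : (4 * G' + 1) * K < (2 : ℝ) ^ k := by
    refine hk0.trans_le (pow_le_pow_right₀ (by norm_num) (by omega))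
  set c : ℝ := 4 * (2400 * 2 ^ k) ^ k * (2 * (D + 2)) ^ (2 * k + 1) with hc
  set ε : ℝ := 1 / (4 * (2 * k + 1)) with hε
  have hε0 : 0 < ε := by positivity
  have htend : Tendsto (fun n : ℕ => (n : ℝ) ^ (1 / 4 : ℝ)) atTop atTop :=
    (tendsto_rpow_atTop (by norm_num)).comp tendsto_natCast_atTop_atTop
  obtain ⟨x, ⟨P, ℓ, s, hP, hℓ, hinj, hs⟩, hx1, hx2, hx3⟩ := ((h ε hε0).and_eventually
    ((htend.eventually (eventually_ge_atTop c)).and
      ((tendsto_natCast_atTop_atTop.eventually (eventually_ge_atTop G')).and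
      (eventually_ge_atTop 1)))).exists
  have hx1r : (1 : ℝ) ≤ x := by exact_mod_cast hx3
  obtain ⟨n, hn⟩ := one_run A k D P ℓ s x G' (by omega) hP hG0 hx2 hx1r hinj
    (fun t ht => ⟨(hs t ht).1, by exact_mod_cast (hs t ht).2.1, (hs t ht).2.2.1,
      (hs t ht).2.2.2.trans (le_max_left _ _)⟩)
    (by
      have h1 : ((x : ℝ) ^ (1 / 2 - ε)) ^ (2 * k + 1) ≤ (ℓ : ℝ) ^ (2 * k + 1) :=
        pow_le_pow_left₀ (by positivity) hℓ _
      refine le_trans ?_ h1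
      have h2 : ((x : ℝ) ^ (1 / 2 - ε)) ^ (2 * k + 1) = (x : ℝ) ^ (1 / 4 : ℝ) * (x : ℝ) ^ k := by
        rw [← Real.rpow_natCast, ← Real.rpow_mul (by linarith), ← Real.rpow_natCast,
          ← Real.rpow_add (by linarith)]
        congr 1
        rw [hε]
        push_cast
        field_simp
        ring
      rw [h2]
      calc 4 * (2400 * 2 ^ k * (x : ℝ)) ^ k * (2 * (D + 2)) ^ (2 * k + 1) = c * (x : ℝ) ^ k := by
            rw [hc, mul_pow _ (x : ℝ)]; ring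
        _ ≤ (x : ℝ) ^ (1 / 4 : ℝ) * (x : ℝ) ^ k := mul_le_mul_of_nonneg_right hx1 (by positivity))
  refine ⟨n, ?_⟩
  have h1 : (4 * G' + 1) * (K : ℝ) < (4 * G' + 1) * rep A n := hk2.trans_le hn
  have h2 : (K : ℝ) < rep A n := lt_of_mul_lt_mul_left h1 (by linarith)
  exact_mod_cast h2

end Pool.Agent.Run7.h129.Arc
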